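import Mathlib

/-!
Grouping lemma: lists of size `N` on a set `F` with `#F ≥ 6 s` give `N` disjoint groups of colours,
each of which occurs in the lists of at least `s` elements of `F`.
-/

set_option autoImplicit false
set_option linter.unusedSectionVars false

namespace Pool.Agent.Helper21.LEL

open Finset

variable {V : Type*} [DecidableEq V] {C : Type*} [DecidableEq C]

/-- elements of `F` whose list meets `X` -/
def supp (F : Finset V) (Λ : V → Finset C) (X : Finset C) : Finset V :=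
  F.filter fun v => (Λ v ∩ X).Nonempty

/-- number of lists containing `c` -/
def qn (F : Finset V) (Λ : V → Finset C) (c : C) : ℕ := #(F.filter fun v => c ∈ Λ v)

theorem mem_supp {F : Finset V} {Λ : V → Finset C} {X : Finset C} {v : V} :
    v ∈ supp F Λ X ↔ v ∈ F ∧ ∃ c ∈ X, c ∈ Λ v := by
  rw [supp, mem_filter]
  constructor
  · rintro ⟨h, c, hc⟩
    rw [mem_inter] at hc
    exact ⟨h, c, hc.2, hc.1⟩
  · rintro ⟨h, c, h1, h2⟩
    exact ⟨h, c, mem_inter.2 ⟨h2, h1⟩⟩

theorem sum_count (F : Finset V) (Λ : V → Finset C) (U : Finset C) :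
    ∑ c ∈ U, #(F.filter fun v => c ∈ Λ v) = ∑ v ∈ F, #(Λ v ∩ U) := by
  have h1 : ∀ c, #(F.filter fun v => c ∈ Λ v) = ∑ v ∈ F, if c ∈ Λ v then 1 else 0 := by
    intro c; rw [card_filter]
  rw [sum_congr rfl fun c _ => h1 c, sum_comm]
  apply sum_congr rfl
  intro v _
  rw [← card_filter]
  congr 1
  ext c
  simp [and_comm]

theorem one_group (F : Finset V) (Λ : V → Finset C) (m s0 : ℕ) (hs0 : 1 ≤ s0) (U : Finset C)
    (hq : ∀ c ∈ U, qn F Λ c < s0) (hm : ∀ v ∈ F, #(Λ v ∩ U) ≤ m)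
    (hsum : (2 * m + 4) * s0 ≤ ∑ c ∈ U, qn F Λ c) :
    ∃ X ⊆ U, s0 ≤ #(supp F Λ X) ∧ ∑ c ∈ X, qn F Λ c ≤ 4 * s0 := by
  set fam := U.powerset.filter fun X =>
    ∑ c ∈ X, qn F Λ c ≤ 2 * #(supp F Λ X) ∧ #(supp F Λ X) < s0 with hfam
  have hsupp0 : supp F Λ ∅ = ∅ := by
    ext v; rw [mem_supp]; simp
  have hne : fam.Nonempty := by
    refine ⟨∅, mem_filter.2 ⟨empty_mem_powerset _, ?_, ?_⟩⟩
    · simp
    · rw [hsupp0, card_empty]; exact hs0
  obtain ⟨X, hX, hmax⟩ := exists_max_image fam card hne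
  rw [hfam, mem_filter, mem_powerset] at hX
  obtain ⟨hXU, hX1, hX2⟩ := hX
  have h1 : ∑ c ∈ U \ X, qn F Λ c + ∑ c ∈ X, qn F Λ c = ∑ c ∈ U, qn F Λ c :=
    sum_sdiff hXU
  have h2 : ∑ c ∈ U \ X, #((supp F Λ X).filter fun v => c ∈ Λ v) ≤ m * #(supp F Λ X) := by
    rw [sum_count]
    calc ∑ v ∈ supp F Λ X, #(Λ v ∩ (U \ X)) ≤ ∑ v ∈ supp F Λ X, m := by
          apply sum_le_sum
          intro v hv
          refine le_trans (card_le_card ?_) (hm v (mem_supp.1 hv).1)
          exact inter_subset_inter_left sdiff_subset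
      _ = m * #(supp F Λ X) := by rw [sum_const, smul_eq_mul, mul_comm]
  have h3 : ∑ c ∈ U \ X, 2 * #((supp F Λ X).filter fun v => c ∈ Λ v)
      < ∑ c ∈ U \ X, qn F Λ c := by
    rw [← mul_sum]
    have h4 : m * #(supp F Λ X) ≤ m * s0 := Nat.mul_le_mul_left _ hX2.le
    have h5 : (2 * m + 4) * s0 = 2 * (m * s0) + 4 * s0 := by ring
    omega
  obtain ⟨c, hc, hlt⟩ := exists_lt_of_sum_lt h3
  rw [mem_sdiff] at hc
  have hsuppins : supp F Λ (insert c X) = supp F Λ X ∪ F.filter fun v => c ∈ Λ v := by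
    ext v
    rw [mem_union, mem_supp, mem_supp, mem_filter]
    constructor
    · rintro ⟨h, c', hc', h'⟩
      rcases mem_insert.1 hc' with rfl | hc'
      · exact Or.inr ⟨h, h'⟩
      · exact Or.inl ⟨h, c', hc', h'⟩
    · rintro (⟨h, c', hc', h'⟩ | ⟨h, h'⟩)
      · exact ⟨h, c', mem_insert_of_mem hc', h'⟩
      · exact ⟨h, c, mem_insert_self _ _, h'⟩
  have hcardins : #(supp F Λ (insert c X)) + #((supp F Λ X).filter fun v => c ∈ Λ v)
      = #(supp F Λ X) + qn F Λ c := by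
    rw [hsuppins]
    have h6 : supp F Λ X ∩ F.filter (fun v => c ∈ Λ v)
        = (supp F Λ X).filter fun v => c ∈ Λ v := by
      ext v
      rw [mem_inter, mem_filter, mem_filter]
      constructor
      · rintro ⟨h, h'⟩; exact ⟨h, h'.2⟩
      · rintro ⟨h, h'⟩; exact ⟨h, (mem_supp.1 h).1, h'⟩
    rw [← h6, card_union_add_card_inter]
    rfl
  have hsumins : ∑ c' ∈ insert c X, qn F Λ c' = qn F Λ c + ∑ c' ∈ X, qn F Λ c' :=
    sum_insert hc.2
  have hqc := hq c hc.1
  refine ⟨insert c X, insert_subset hc.1 hXU, ?_, ?_⟩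
  · by_contra hcon
    rw [not_le] at hcon
    have hmem : insert c X ∈ fam := by
      rw [hfam, mem_filter, mem_powerset]
      refine ⟨insert_subset hc.1 hXU, ?_, hcon⟩
      omega
    have := hmax _ hmem
    rw [card_insert_of_notMem hc.2] at this
    omega
  · omega

theorem light (F : Finset V) (Λ : V → Finset C) (m s0 : ℕ) (hs0 : 1 ≤ s0) :
    ∀ (g : ℕ) (U : Finset C), (∀ c ∈ U, qn F Λ c < s0) → (∀ v ∈ F, #(Λ v ∩ U) ≤ m) →
      (2 * m + 4 * g) * s0 ≤ ∑ c ∈ U, qn F Λ c →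
      ∃ G : Finset (Finset C), #G = g ∧ (∀ X ∈ G, ∀ Y ∈ G, X ≠ Y → Disjoint X Y) ∧
        ∀ X ∈ G, X ⊆ U ∧ s0 ≤ #(supp F Λ X) := by
  intro g
  induction g with
  | zero => intro U _ _ _; exact ⟨∅, by simp, by simp, by simp⟩
  | succ g ih =>
    intro U hq hm hsum
    obtain ⟨X, hXU, hX1, hX2⟩ := one_group F Λ m s0 hs0 U hq hm (by
      refine le_trans ?_ hsum
      apply Nat.mul_le_mul_right; omega)
    have h1 : ∑ c ∈ U \ X, qn F Λ c + ∑ c ∈ X, qn F Λ c = ∑ c ∈ U, qn F Λ c :=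
      sum_sdiff hXU
    obtain ⟨G, hG1, hG2, hG3⟩ := ih (U \ X) (fun c hc => hq c (mem_sdiff.1 hc).1)
      (fun v hv => (card_le_card (inter_subset_inter_left sdiff_subset)).trans (hm v hv)) (by
        have : (2 * m + 4 * (g + 1)) * s0 = (2 * m + 4 * g) * s0 + 4 * s0 := by ring
        omega)
    have hXne : X.Nonempty := by
      by_contra hcon
      rw [not_nonempty_iff_eq_empty] at hcon
      subst hcon
      have : supp F Λ ∅ = ∅ := by ext v; rw [mem_supp]; simp
      rw [this] at hX1; simp at hX1; omega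
    have hdisj : ∀ Y ∈ G, Disjoint X Y := by
      intro Y hY
      have := (hG3 Y hY).1
      exact (disjoint_sdiff).mono_right this
    have hXG : X ∉ G := by
      intro h
      have := hdisj X h
      rw [disjoint_self] at this
      exact hXne.ne_empty this
    refine ⟨insert X G, by rw [card_insert_of_notMem hXG, hG1], ?_, ?_⟩
    · intro Y hY Y' hY' hne
      rcases mem_insert.1 hY with h1 | h1 <;> rcases mem_insert.1 hY' with h2 | h2
      · exact absurd (h1.trans h2.symm) hne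
      · rw [h1]; exact hdisj _ h2
      · rw [h2]; exact (hdisj _ h1).symm
      · exact hG2 Y h1 Y' h2 hne
    · intro Y hY
      rcases mem_insert.1 hY with rfl | hY
      · exact ⟨hXU, hX1⟩
      · exact ⟨(hG3 Y hY).1.trans sdiff_subset, (hG3 Y hY).2⟩

theorem grouping (F : Finset V) (Λ : V → Finset C) (N s0 : ℕ) (hs0 : 1 ≤ s0)
    (hF : 6 * s0 ≤ #F) (hΛ : ∀ v ∈ F, N ≤ #(Λ v)) :
    ∃ G : Finset (Finset C), #G = N ∧ (∀ X ∈ G, ∀ Y ∈ G, X ≠ Y → Disjoint X Y) ∧
      ∀ X ∈ G, s0 ≤ #(supp F Λ X) := by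
  set U0 := F.biUnion Λ with hU0
  set Hv := U0.filter fun c => s0 ≤ qn F Λ c with hHv
  have hsing : ∀ c ∈ Hv, s0 ≤ #(supp F Λ {c}) := by
    intro c hc
    have h1 := (mem_filter.1 hc).2
    have h2 : supp F Λ {c} = F.filter fun v => c ∈ Λ v := by
      ext v; rw [mem_supp, mem_filter]; simp
    rw [h2]; exact h1
  have hsd : ∀ {c c' : C}, ({c} : Finset C) ≠ {c'} → Disjoint ({c} : Finset C) {c'} := by
    intro c c' h
    rw [disjoint_singleton]
    intro hh; exact h (by rw [hh])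
  by_cases hcase : N ≤ #Hv
  · obtain ⟨H', hH', hH'c⟩ := exists_subset_card_eq hcase
    refine ⟨H'.map ⟨singleton, singleton_injective⟩, by rw [card_map, hH'c], ?_, ?_⟩
    · intro X hX Y hY hne
      rw [mem_map] at hX hY
      obtain ⟨c, hc, rfl⟩ := hX
      obtain ⟨c', hc', rfl⟩ := hY
      exact hsd hne
    · intro X hX
      rw [mem_map] at hX
      obtain ⟨c, hc, rfl⟩ := hX
      exact hsing c (hH' hc)
  · rw [not_le] at hcase
    set m := N - #Hv with hm
    have hT : ∀ v, ∃ T : Finset C, v ∈ F → (T ⊆ Λ v \ Hv ∧ #T = m) := by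
      intro v
      by_cases hv : v ∈ F
      · have h1 : m ≤ #(Λ v \ Hv) := by
          have := Finset.le_card_sdiff Hv (Λ v)
          have := hΛ v hv
          omega
        obtain ⟨T, h2, h3⟩ := exists_subset_card_eq h1
        exact ⟨T, fun _ => ⟨h2, h3⟩⟩
      · exact ⟨∅, fun h => absurd h hv⟩
    choose Λ' hΛ' using hT
    set U := U0 \ Hv with hU
    have hsubU : ∀ v ∈ F, Λ' v ⊆ U := by
      intro v hv c hc
      have := (hΛ' v hv).1 hc
      rw [mem_sdiff] at this ⊢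
      exact ⟨mem_biUnion.2 ⟨v, hv, this.1⟩, this.2⟩
    have hq' : ∀ c, qn F Λ' c ≤ qn F Λ c := by
      intro c
      apply card_le_card
      intro v hv
      rw [mem_filter] at *
      exact ⟨hv.1, (mem_sdiff.1 ((hΛ' v hv.1).1 hv.2)).1⟩
    have a1 : ∀ c ∈ U, qn F Λ' c < s0 := by
      intro c hc
      rw [hU, mem_sdiff, hHv, mem_filter] at hc
      have h1 := hq' c
      by_contra hcon
      exact hc.2 ⟨hc.1, by omega⟩
    have a2 : ∀ v ∈ F, #(Λ' v ∩ U) ≤ m := by
      intro v hv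
      rw [inter_eq_left.2 (hsubU v hv), (hΛ' v hv).2]
    have a3 : (2 * m + 4 * m) * s0 ≤ ∑ c ∈ U, qn F Λ' c := by
      have h1 : ∑ c ∈ U, qn F Λ' c = ∑ v ∈ F, #(Λ' v ∩ U) := sum_count F Λ' U
      rw [h1]
      have h2 : ∑ v ∈ F, #(Λ' v ∩ U) = ∑ v ∈ F, m := by
        apply sum_congr rfl
        intro v hv
        rw [inter_eq_left.2 (hsubU v hv), (hΛ' v hv).2]
      rw [h2, sum_const, smul_eq_mul]
      calc (2 * m + 4 * m) * s0 = (6 * s0) * m := by ring
        _ ≤ #F * m := Nat.mul_le_mul_right _ hF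
    obtain ⟨G, hG1, hG2, hG3⟩ := light F Λ' m s0 hs0 m U a1 a2 a3
    · have hsup : ∀ X, #(supp F Λ' X) ≤ #(supp F Λ X) := by
        intro X
        apply card_le_card
        intro v hv
        rw [mem_supp] at *
        obtain ⟨h1, c, h2, h3⟩ := hv
        exact ⟨h1, c, h2, (mem_sdiff.1 ((hΛ' v h1).1 h3)).1⟩
      have hcross : ∀ X ∈ G, ∀ c ∈ Hv, Disjoint X {c} := by
        intro X hX c hc
        rw [disjoint_singleton_right]
        intro h
        have := (hG3 X hX).1 h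
        exact (mem_sdiff.1 this).2 hc
      have hdisj : Disjoint G (Hv.map ⟨singleton, singleton_injective⟩) := by
        rw [Finset.disjoint_left]
        intro X hX hX'
        rw [mem_map] at hX'
        obtain ⟨c, hc, rfl⟩ := hX'
        have := hcross _ hX c hc
        simp at this
      refine ⟨G ∪ Hv.map ⟨singleton, singleton_injective⟩, ?_, ?_, ?_⟩
      · rw [card_union_of_disjoint hdisj, card_map, hG1]; omega
      · intro X hX Y hY hne
        rw [mem_union, mem_map] at hX hY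
        rcases hX with hX | ⟨c, hc, rfl⟩ <;> rcases hY with hY | ⟨c', hc', rfl⟩
        · exact hG2 X hX Y hY hne
        · exact hcross X hX c' hc'
        · exact (hcross Y hY c hc).symm
        · exact hsd hne
      · intro X hX
        rw [mem_union, mem_map] at hX
        rcases hX with hX | ⟨c, hc, rfl⟩
        · exact (hG3 X hX).2.trans (hsup X)
        · exact hsing c hc

end Pool.Agent.Helper21.LEL
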