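import Mathlib

/-!
The weighted local lemma on a finite box `∏ T i` with the uniform measure.
If `∑_{e ∋ i} P(A_e) b^{|D_e|} ≤ 1 - 1/b` for every coordinate `i`, then some point avoids all events.
-/

set_option autoImplicit false
set_option linter.unusedSectionVars false

namespace Pool.Agent.Helper21.LEL

open Finset

variable {ι : Type*} [Fintype ι] [DecidableEq ι] {β : Type*} [DecidableEq β]

/-- `P` depends only on the coordinates in `D` -/
def Dep (D : Finset ι) (P : (ι → β) → Prop) : Prop :=
  ∀ ω ω' : ι → β, (∀ i ∈ D, ω i = ω' i) → (P ω ↔ P ω')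

open Classical in
/-- number of points of the box with property `P` -/
noncomputable def cnt (T : ι → Finset β) (P : (ι → β) → Prop) : ℝ :=
  (#((Fintype.piFinset T).filter P) : ℝ)

theorem cnt_eq (T : ι → Finset β) (P : (ι → β) → Prop) [DecidablePred P] :
    cnt T P = (#((Fintype.piFinset T).filter P) : ℝ) := by
  unfold cnt; congr

theorem cnt_nonneg (T : ι → Finset β) (P : (ι → β) → Prop) : 0 ≤ cnt T P := by
  unfold cnt; positivity

theorem cnt_mono {T : ι → Finset β} {P Q : (ι → β) → Prop} (h : ∀ ω, P ω → Q ω) :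
    cnt T P ≤ cnt T Q := by
  classical
  unfold cnt
  have : (Fintype.piFinset T).filter P ⊆ (Fintype.piFinset T).filter Q := by
    intro ω hω
    rw [mem_filter] at *
    exact ⟨hω.1, h ω hω.2⟩
  exact_mod_cast card_le_card this

theorem cnt_true (T : ι → Finset β) : cnt T (fun _ => True) = ∏ i, (#(T i) : ℝ) := by
  classical
  rw [cnt_eq, filter_true_of_mem (fun _ _ => trivial), Fintype.card_piFinset]
  push_cast
  rfl

theorem cnt_true_pos {T : ι → Finset β} (hT : ∀ i, (T i).Nonempty) :
    0 < cnt T (fun _ => True) := by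
  rw [cnt_true]
  apply Finset.prod_pos
  intro i _
  exact_mod_cast (hT i).card_pos

theorem cnt_or {T : ι → Finset β} (P Q : (ι → β) → Prop) :
    cnt T (fun ω => P ω ∨ Q ω) ≤ cnt T P + cnt T Q := by
  classical
  rw [cnt_eq, cnt_eq, cnt_eq]
  have h1 : (Fintype.piFinset T).filter (fun ω => P ω ∨ Q ω)
      ⊆ (Fintype.piFinset T).filter P ∪ (Fintype.piFinset T).filter Q := by
    intro ω hω
    rw [mem_filter] at hω
    rw [mem_union, mem_filter, mem_filter]
    rcases hω.2 with h | h
    · exact Or.inl ⟨hω.1, h⟩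
    · exact Or.inr ⟨hω.1, h⟩
  have h2 := (card_le_card h1).trans (card_union_le _ _)
  exact_mod_cast h2

theorem cnt_split {T : ι → Finset β} (P Q : (ι → β) → Prop) :
    cnt T P = cnt T (fun ω => P ω ∧ Q ω) + cnt T (fun ω => P ω ∧ ¬ Q ω) := by
  classical
  rw [cnt_eq, cnt_eq, cnt_eq, ← Nat.cast_add]
  congr 1
  rw [← filter_filter, ← filter_filter]
  exact (card_filter_add_card_filter_not (s := (Fintype.piFinset T).filter P) Q).symm

theorem cnt_exists_le {T : ι → Finset β} {E : Type*} (S : Finset E) (P : E → (ι → β) → Prop) :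
    cnt T (fun ω => ∃ e ∈ S, P e ω) ≤ ∑ e ∈ S, cnt T (P e) := by
  classical
  induction S using Finset.induction_on with
  | empty =>
    simp only [notMem_empty, false_and, exists_false, sum_empty]
    unfold cnt
    simp
  | insert a S ha ih =>
    rw [sum_insert ha]
    refine le_trans (le_trans (cnt_mono ?_) (cnt_or (P a) (fun ω => ∃ e ∈ S, P e ω)))
      (add_le_add le_rfl ih)
    rintro ω ⟨e, he, h⟩
    rcases mem_insert.1 he with rfl | he
    · exact Or.inl h
    · exact Or.inr ⟨e, he, h⟩

/-- independence -/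
theorem cnt_indep {T : ι → Finset β} {D D' : Finset ι} (hD : Disjoint D D')
    {P Q : (ι → β) → Prop} (hP : Dep D P) (hQ : Dep D' Q) :
    cnt T (fun ω => P ω ∧ Q ω) * cnt T (fun _ => True) = cnt T P * cnt T Q := by
  classical
  rw [cnt_eq, cnt_eq, cnt_eq, cnt_eq, filter_true_of_mem (fun _ _ => trivial)]
  rw [← Nat.cast_mul, ← Nat.cast_mul, ← card_product, ← card_product]
  congr 1
  have memb : ∀ x y : ι → β, x ∈ Fintype.piFinset T → y ∈ Fintype.piFinset T →
      D.piecewise x y ∈ Fintype.piFinset T := by
    intro x y hx hy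
    rw [Fintype.mem_piFinset] at *
    intro i
    by_cases hi : i ∈ D
    · simpa [hi] using hx i
    · simpa [hi] using hy i
  refine card_nbij' (fun p => (D.piecewise p.1 p.2, D.piecewise p.2 p.1))
    (fun p => (D.piecewise p.1 p.2, D.piecewise p.2 p.1)) ?_ ?_ ?_ ?_
  · rintro ⟨x, y⟩ h
    simp only [coe_product, Set.mem_prod, mem_coe, mem_filter] at h ⊢
    obtain ⟨⟨hx, hPx, hQx⟩, hy⟩ := h
    refine ⟨⟨memb x y hx hy, ?_⟩, memb y x hy hx, ?_⟩
    · exact (hP x _ fun i hi => by simp [hi]).1 hPx
    · refine (hQ x _ fun i hi => ?_).1 hQx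
      have : i ∉ D := fun h => (Finset.disjoint_left.1 hD h) hi
      simp [this]
  · rintro ⟨x, y⟩ h
    simp only [coe_product, Set.mem_prod, mem_coe, mem_filter] at h ⊢
    obtain ⟨⟨hx, hPx⟩, hy, hQy⟩ := h
    refine ⟨⟨memb x y hx hy, ?_, ?_⟩, memb y x hy hx⟩
    · exact (hP x _ fun i hi => by simp [hi]).1 hPx
    · refine (hQ y _ fun i hi => ?_).1 hQy
      have : i ∉ D := fun h => (Finset.disjoint_left.1 hD h) hi
      simp [this]
  · rintro ⟨x, y⟩ _
    simp only [Prod.mk.injEq]
    constructor <;> · ext i; by_cases hi : i ∈ D <;> simp [hi]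
  · rintro ⟨x, y⟩ _
    simp only [Prod.mk.injEq]
    constructor <;> · ext i; by_cases hi : i ∈ D <;> simp [hi]

section LLL

variable {E : Type*} [Fintype E] [DecidableEq E]

/-- avoiding all events in `S` -/
def gd (A : E → (ι → β) → Prop) (S : Finset E) (ω : ι → β) : Prop := ∀ e ∈ S, ¬ A e ω

theorem gd_dep {A : E → (ι → β) → Prop} {D : E → Finset ι} (hdep : ∀ e, Dep (D e) (A e))
    (S : Finset E) (W : Finset ι) (hW : ∀ e ∈ S, D e ⊆ W) : Dep W (gd A S) := by
  intro ω ω' h
  unfold gd
  constructor
  · intro h1 e he h2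
    exact h1 e he ((hdep e ω ω' fun i hi => h i (hW e he hi)).2 h2)
  · intro h1 e he h2
    exact h1 e he ((hdep e ω ω' fun i hi => h i (hW e he hi)).1 h2)

/-- weighted local lemma -/
theorem wlll {T : ι → Finset β} (hT : ∀ i, (T i).Nonempty) (A : E → (ι → β) → Prop)
    (D : E → Finset ι) (hdep : ∀ e, Dep (D e) (A e)) (hD : ∀ e, (D e).Nonempty)
    (w : E → ℝ) (hw0 : ∀ e, 0 ≤ w e)
    (hw : ∀ e, cnt T (A e) ≤ w e * cnt T (fun _ => True)) (b : ℝ) (hb : 1 < b)
    (hsum : ∀ i, ∑ e ∈ univ.filter (fun e => i ∈ D e), w e * b ^ #(D e) ≤ 1 - 1 / b) :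
    ∃ ω ∈ Fintype.piFinset T, ∀ e, ¬ A e ω := by
  classical
  have hb0 : 0 < b := by linarith
  set Z := cnt T (fun _ => True) with hZ
  have hZ0 : 0 < Z := cnt_true_pos hT
  set g : Finset E → ℝ := fun S => cnt T (gd A S) with hg
  have hg0 : ∀ S, 0 ≤ g S := fun S => cnt_nonneg _ _
  set x : E → ℝ := fun e => w e * b ^ #(D e) with hx
  have hx0 : ∀ e, 0 ≤ x e := fun e => mul_nonneg (hw0 e) (by positivity)
  have key : ∀ S : Finset E, ∀ e, e ∉ S →
      cnt T (fun ω => A e ω ∧ gd A S ω) ≤ x e * g S := by
    intro S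
    induction S using Finset.strongInduction with
    | H S ih =>
      have step : ∀ W : Finset ι,
          g (S.filter fun e' => Disjoint (D e') W) * (1 / b) ^ #W ≤ g S := by
        intro W
        induction W using Finset.induction_on with
        | empty =>
          have : S.filter (fun e' => Disjoint (D e') ∅) = S := by
            apply filter_true_of_mem; intro e' _; exact disjoint_empty_right _
          rw [this]; simp
        | insert i W hi ihW =>
          set S1 := S.filter fun e' => Disjoint (D e') W with hS1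
          set S2 := S.filter fun e' => Disjoint (D e') (insert i W) with hS2
          have hsub : S2 ⊆ S1 := by
            intro e' he'
            rw [hS2, mem_filter, disjoint_insert_right] at he'
            rw [hS1, mem_filter]
            exact ⟨he'.1, he'.2.2⟩
          have hS2S : S2 ⊆ S := filter_subset _ _
          -- g S2 ≤ g S1 + sum
          have h1 : g S2 ≤ g S1 + ∑ e' ∈ S1 \ S2, cnt T (fun ω => A e' ω ∧ gd A S2 ω) := by
            have h2 : g S2 ≤ cnt T (fun ω => gd A S1 ω ∨
                ∃ e' ∈ S1 \ S2, (A e' ω ∧ gd A S2 ω)) := by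
              apply cnt_mono
              intro ω hω
              by_cases hc : ∃ e' ∈ S1 \ S2, A e' ω
              · obtain ⟨e', he', hA⟩ := hc
                exact Or.inr ⟨e', he', hA, hω⟩
              · push Not at hc
                left
                intro e' he'
                by_cases h' : e' ∈ S2
                · exact hω e' h'
                · exact hc e' (mem_sdiff.2 ⟨he', h'⟩)
            exact h2.trans ((cnt_or _ _).trans (add_le_add le_rfl (cnt_exists_le _ _)))
          have h2 : ∑ e' ∈ S1 \ S2, cnt T (fun ω => A e' ω ∧ gd A S2 ω)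
              ≤ ∑ e' ∈ S1 \ S2, x e' * g S2 := by
            apply sum_le_sum
            intro e' he'
            rw [mem_sdiff] at he'
            have he'S : e' ∈ S := (mem_filter.1 he'.1).1
            apply ih S2 _ e' he'.2
            exact ⟨hS2S, fun hh => he'.2 (hh he'S)⟩
          have h3 : ∑ e' ∈ S1 \ S2, x e' ≤ 1 - 1 / b := by
            refine le_trans ?_ (hsum i)
            apply sum_le_sum_of_subset_of_nonneg
            · intro e' he'
              rw [mem_sdiff, hS1, hS2, mem_filter, mem_filter, disjoint_insert_right] at he'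
              rw [mem_filter]
              refine ⟨mem_univ _, ?_⟩
              by_contra hcon
              exact he'.2 ⟨he'.1.1, hcon, he'.1.2⟩
            · intro e' _ _; exact hx0 e'
          rw [← sum_mul] at h2
          have h4 : (∑ e' ∈ S1 \ S2, x e') * g S2 ≤ (1 - 1 / b) * g S2 :=
            mul_le_mul_of_nonneg_right h3 (hg0 S2)
          have h5 : g S2 * (1 / b) ≤ g S1 := by nlinarith
          rw [card_insert_of_notMem hi, pow_succ]
          calc g S2 * ((1 / b) ^ #W * (1 / b)) = (g S2 * (1 / b)) * (1 / b) ^ #W := by ring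
            _ ≤ g S1 * (1 / b) ^ #W := mul_le_mul_of_nonneg_right h5 (by positivity)
            _ ≤ g S := ihW
      intro e he
      set S2 := S.filter fun e' => Disjoint (D e') (D e) with hS2
      have h1 : cnt T (fun ω => A e ω ∧ gd A S ω) ≤ cnt T (fun ω => A e ω ∧ gd A S2 ω) := by
        apply cnt_mono
        rintro ω ⟨h1, h2⟩
        exact ⟨h1, fun e' he' => h2 e' (mem_filter.1 he').1⟩
      have h2 : cnt T (fun ω => A e ω ∧ gd A S2 ω) * Z = cnt T (A e) * g S2 := by
        apply cnt_indep (D := D e) (D' := S2.biUnion D) _ (hdep e) (gd_dep hdep S2 _ ?_)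
        · rw [Finset.disjoint_biUnion_right]
          intro e' he'
          exact (mem_filter.1 he').2.symm
        · intro e' he'
          exact subset_biUnion_of_mem D he'
      have h3 : cnt T (fun ω => A e ω ∧ gd A S2 ω) ≤ w e * g S2 := by
        have h4 := mul_le_mul_of_nonneg_right (hw e) (hg0 S2)
        have h5 : cnt T (fun ω => A e ω ∧ gd A S2 ω) * Z ≤ (w e * g S2) * Z := by
          rw [h2]; linarith
        exact le_of_mul_le_mul_right h5 hZ0
      have h6 := step (D e)
      have h7 : g S2 ≤ b ^ #(D e) * g S := by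
        have h8 : (1 / b) ^ #(D e) * b ^ #(D e) = 1 := by
          rw [← mul_pow, one_div, inv_mul_cancel₀ (ne_of_gt hb0), one_pow]
        calc g S2 = (g S2 * (1 / b) ^ #(D e)) * b ^ #(D e) := by rw [mul_assoc, h8, mul_one]
          _ ≤ g S * b ^ #(D e) := mul_le_mul_of_nonneg_right h6 (by positivity)
          _ = _ := by ring
      calc cnt T (fun ω => A e ω ∧ gd A S ω) ≤ w e * g S2 := h1.trans h3
        _ ≤ w e * (b ^ #(D e) * g S) := mul_le_mul_of_nonneg_left h7 (hw0 e)
        _ = x e * g S := by rw [hx]; ring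
  have hpos : ∀ S : Finset E, 0 < g S := by
    intro S
    induction S using Finset.induction_on with
    | empty =>
      have : g ∅ = Z := by
        simp only [hg, hZ]
        congr 1
        ext ω
        simp [gd]
      rw [this]; exact hZ0
    | insert e S he ih =>
      have h1 := key S e he
      have h2 : g S ≤ g (insert e S) + cnt T (fun ω => A e ω ∧ gd A S ω) := by
        refine le_trans (cnt_mono ?_) (cnt_or _ _)
        intro ω hω
        by_cases hh : A e ω
        · exact Or.inr ⟨hh, hω⟩
        · left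
          intro e' he'
          rcases mem_insert.1 he' with rfl | h
          · exact hh
          · exact hω e' h
      have h3 : x e ≤ 1 - 1 / b := by
        obtain ⟨i, hi⟩ := hD e
        refine le_trans ?_ (hsum i)
        exact single_le_sum (f := x) (fun e' _ => hx0 e') (mem_filter.2 ⟨mem_univ _, hi⟩)
      have h4 : 0 < 1 / b := by positivity
      nlinarith
  have h := hpos univ
  unfold g cnt at h
  rw [Nat.cast_pos, card_pos] at h
  obtain ⟨ω, hω⟩ := h
  rw [mem_filter] at hω
  exact ⟨ω, hω.1, fun e => hω.2 e (mem_univ _)⟩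

end LLL

end Pool.Agent.Helper21.LEL
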