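import Mathlib
import Pool.Agent.Helper21.LEL.WLLL

/-!
Counting distinct values of independent samples.
-/

set_option autoImplicit false
set_option linter.unusedSectionVars false

namespace Pool.Agent.Helper21.LEL

open Finset

variable {ι : Type*} [Fintype ι] [DecidableEq ι] {β : Type*} [DecidableEq β]
  {γ : Type*} [DecidableEq γ]

/-- resampling one coordinate -/
theorem sum_resample (T : ι → Finset β) (a : ι) (f : (ι → β) → ℝ) :
    (#(T a) : ℝ) * ∑ ω ∈ Fintype.piFinset T, f ω
      = ∑ ω ∈ Fintype.piFinset T, ∑ x ∈ T a, f (Function.update ω a x) := by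
  rw [← sum_product' (s := Fintype.piFinset T) (t := T a)
    (f := fun ω x => f (Function.update ω a x))]
  have h1 : (#(T a) : ℝ) * ∑ ω ∈ Fintype.piFinset T, f ω
      = ∑ p ∈ Fintype.piFinset T ×ˢ T a, f p.1 := by
    rw [sum_product, mul_sum]
    apply sum_congr rfl
    intro ω _
    simp only [sum_const, nsmul_eq_mul]
  rw [h1]
  refine sum_nbij' (fun p => (Function.update p.1 a p.2, p.1 a))
    (fun p => (Function.update p.1 a p.2, p.1 a)) ?_ ?_ ?_ ?_ ?_
  · rintro ⟨ω, x⟩ h
    rw [mem_product, Fintype.mem_piFinset] at h ⊢
    refine ⟨fun i => ?_, h.1 a⟩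
    by_cases hi : i = a
    · subst hi; simpa using h.2
    · simpa [hi] using h.1 i
  · rintro ⟨ω, x⟩ h
    rw [mem_product, Fintype.mem_piFinset] at h ⊢
    refine ⟨fun i => ?_, h.1 a⟩
    by_cases hi : i = a
    · subst hi; simpa using h.2
    · simpa [hi] using h.1 i
  · rintro ⟨ω, x⟩ _; simp
  · rintro ⟨ω, x⟩ _; simp
  · rintro ⟨ω, x⟩ _; simp

open Classical in
theorem cnt_eq_sum (T : ι → Finset β) (P : (ι → β) → Prop) :
    cnt T P = ∑ ω ∈ Fintype.piFinset T, (if P ω then (1 : ℝ) else 0) := by
  rw [cnt_eq, card_filter]
  push_cast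
  rfl

/-- few distinct values -/
theorem distinct_bound {T : ι → Finset β} (g : β → γ) (D : Finset ι)
    (hg : ∀ i ∈ D, Set.InjOn g (T i)) (n : ℝ) (hn0 : 0 < n) (hn : ∀ i ∈ D, n ≤ #(T i))
    (j : ℕ) (t : ℝ) (ht0 : 0 < t) (ht1 : t ≤ 1) :
    cnt T (fun ω => #(D.image fun i => g (ω i)) < j)
      ≤ (1 / t) ^ j * (j / n + t) ^ #D * cnt T (fun _ => True) := by
  classical
  set Z := cnt T (fun _ => True) with hZ
  set Φ : Finset ι → ℝ := fun D' => ∑ ω ∈ Fintype.piFinset T,
    (if #(D'.image fun i => g (ω i)) < j then t ^ #(D'.image fun i => g (ω i)) else 0) with hΦ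
  have hrate : 0 ≤ (j : ℝ) / n + t := by positivity
  have key : ∀ D' ⊆ D, Φ D' ≤ ((j : ℝ) / n + t) ^ #D' * Z := by
    intro D'
    induction D' using Finset.induction_on with
    | empty =>
      intro _
      simp only [hΦ, image_empty, card_empty, pow_zero, one_mul, hZ, cnt_eq_sum, if_true]
      apply sum_le_sum
      intro ω _
      split_ifs <;> norm_num
    | insert a D' ha ih =>
      intro hsub
      have haD : a ∈ D := hsub (mem_insert_self _ _)
      have ih := ih fun i hi => hsub (mem_insert_of_mem hi)
      have hTa : (0 : ℝ) < #(T a) := lt_of_lt_of_le hn0 (hn a haD)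
      have h1 : (#(T a) : ℝ) * Φ (insert a D') ≤ (#(T a) : ℝ) * (((j : ℝ) / n + t) * Φ D') := by
        simp only [hΦ]
        rw [sum_resample, mul_sum, mul_sum]
        apply sum_le_sum
        intro ω _
        set Im := D'.image fun i => g (ω i) with hIm
        have himg : ∀ x, (insert a D').image (fun i => g (Function.update ω a x i))
            = insert (g x) Im := by
          intro x
          rw [image_insert, Function.update_self]
          congr 1
          rw [hIm]
          apply image_congr
          intro i hi
          have : i ≠ a := fun hh => ha (hh ▸ hi)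
          simp [this]
        simp only [himg]
        have h2 : ∀ x ∈ T a, (if #(insert (g x) Im) < j then t ^ #(insert (g x) Im) else 0)
            ≤ (if #Im < j then t ^ #Im else 0) * ((if g x ∈ Im then 1 else 0) + t) := by
          intro x _
          by_cases hx : g x ∈ Im
          · rw [insert_eq_of_mem hx]
            simp only [hx, if_true]
            have : 0 ≤ (if #Im < j then t ^ #Im else 0) := by split_ifs <;> positivity
            nlinarith
          · rw [card_insert_of_notMem hx]
            simp only [hx, if_false, zero_add]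
            by_cases hc : #Im + 1 < j
            · have hc' : #Im < j := by omega
              simp only [hc, hc', if_true, pow_succ]
              exact le_rfl
            · simp only [hc, if_false]
              have : 0 ≤ (if #Im < j then t ^ #Im else 0) := by split_ifs <;> positivity
              positivity
        refine (sum_le_sum h2).trans ?_
        rw [← mul_sum, sum_add_distrib, sum_const, nsmul_eq_mul]
        by_cases hc : #Im < j
        · simp only [hc, if_true]
          have h3 : ∑ x ∈ T a, (if g x ∈ Im then (1 : ℝ) else 0) ≤ #Im := by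
            rw [← sum_filter, sum_const, nsmul_eq_mul, mul_one]
            have h4 : #((T a).filter fun x => g x ∈ Im) ≤ #Im := by
              apply card_le_card_of_injOn g
              · intro x hx
                exact (mem_filter.1 (mem_coe.1 hx)).2
              · intro x hx y hy hxy
                exact hg a haD (mem_filter.1 (mem_coe.1 hx)).1 (mem_filter.1 (mem_coe.1 hy)).1 hxy
            exact_mod_cast h4
          have h5 : (#Im : ℝ) ≤ #(T a) * (j / n) := by
            have h6 : (#Im : ℝ) ≤ j := by exact_mod_cast hc.le
            have h7 : (1 : ℝ) ≤ #(T a) / n := by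
              rw [one_le_div hn0]; exact hn a haD
            calc (#Im : ℝ) ≤ j := h6
              _ = 1 * j := by ring
              _ ≤ #(T a) / n * j := mul_le_mul_of_nonneg_right h7 (by positivity)
              _ = _ := by ring
          have h8 : 0 < t ^ #Im := by positivity
          calc t ^ #Im * (∑ x ∈ T a, (if g x ∈ Im then (1 : ℝ) else 0) + #(T a) * t)
              ≤ t ^ #Im * (#(T a) * (j / n) + #(T a) * t) := by
                apply mul_le_mul_of_nonneg_left _ h8.le
                linarith
            _ = _ := by ring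
        · simp only [hc, if_false]
          simp
      have h2 := le_of_mul_le_mul_left h1 hTa
      rw [card_insert_of_notMem ha, pow_succ]
      calc Φ (insert a D') ≤ ((j : ℝ) / n + t) * Φ D' := h2
        _ ≤ ((j : ℝ) / n + t) * (((j : ℝ) / n + t) ^ #D' * Z) :=
          mul_le_mul_of_nonneg_left ih hrate
        _ = _ := by ring
  have hfin : cnt T (fun ω => #(D.image fun i => g (ω i)) < j) ≤ (1 / t) ^ j * Φ D := by
    rw [cnt_eq_sum, hΦ, mul_sum]
    apply sum_le_sum
    intro ω _
    by_cases hc : #(D.image fun i => g (ω i)) < j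
    · simp only [hc, if_true]
      set m := #(D.image fun i => g (ω i))
      have h1 : (1 / t) ^ m * t ^ m = 1 := by
        rw [← mul_pow, one_div, inv_mul_cancel₀ (ne_of_gt ht0), one_pow]
      have h2 : (1 / t) ^ m ≤ (1 / t) ^ j :=
        pow_le_pow_right₀ (by rw [le_div_iff₀ ht0]; linarith) hc.le
      calc (1 : ℝ) = (1 / t) ^ m * t ^ m := h1.symm
        _ ≤ (1 / t) ^ j * t ^ m := mul_le_mul_of_nonneg_right h2 (by positivity)
    · simp only [hc, if_false]; simp
  calc cnt T (fun ω => #(D.image fun i => g (ω i)) < j) ≤ (1 / t) ^ j * Φ D := hfin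
    _ ≤ (1 / t) ^ j * (((j : ℝ) / n + t) ^ #D * Z) :=
      mul_le_mul_of_nonneg_left (key D subset_rfl) (by positivity)
    _ = _ := by ring

/-- all samples satisfy a condition -/
theorem all_in_bound {T : ι → Finset β} (D : Finset ι) (P : ι → β → Prop)
    [∀ i, DecidablePred (P i)] (q : ℝ)
    (h : ∀ i ∈ D, (#((T i).filter (P i)) : ℝ) ≤ q * #(T i)) :
    cnt T (fun ω => ∀ i ∈ D, P i (ω i)) ≤ q ^ #D * cnt T (fun _ => True) := by
  classical
  rw [cnt_true, cnt_eq]
  have h1 : (Fintype.piFinset T).filter (fun ω => ∀ i ∈ D, P i (ω i))
      = Fintype.piFinset fun i => if i ∈ D then (T i).filter (P i) else T i := by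
    ext ω
    rw [mem_filter, Fintype.mem_piFinset, Fintype.mem_piFinset]
    constructor
    · rintro ⟨h1, h2⟩ i
      by_cases hi : i ∈ D
      · simp only [hi, if_true, mem_filter]
        exact ⟨h1 i, h2 i hi⟩
      · simp only [hi, if_false]; exact h1 i
    · intro h1
      constructor
      · intro i
        have := h1 i
        by_cases hi : i ∈ D
        · simp only [hi, if_true, mem_filter] at this
          exact this.1
        · simpa only [hi, if_false] using this
      · intro i hi
        have := h1 i
        simp only [hi, if_true, mem_filter] at this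
        exact this.2
  rw [h1, Fintype.card_piFinset]
  push_cast
  have h2 : ∏ i, ((#(if i ∈ D then (T i).filter (P i) else T i) : ℕ) : ℝ)
      ≤ ∏ i, ((if i ∈ D then q else 1) * (#(T i) : ℝ)) := by
    apply prod_le_prod
    · intro i _; positivity
    · intro i _
      by_cases hi : i ∈ D
      · simp only [hi, if_true]; exact h i hi
      · simp only [hi, if_false, one_mul]; exact le_rfl
  refine h2.trans (le_of_eq ?_)
  rw [prod_mul_distrib, prod_ite_mem, univ_inter, prod_const]

end Pool.Agent.Helper21.LEL
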