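import Mathlib
import Pool.Agent.Helper21.LEL.Distinct

/-!
Packaging of classes of bad events.
-/

set_option autoImplicit false
set_option linter.unusedSectionVars false

namespace Pool.Agent.Helper21.LEL

open Finset

variable {ι : Type} [Fintype ι] [DecidableEq ι] {β : Type} [DecidableEq β]

/-- `P` holds as soon as a class of bad events of weight `τ` is avoided -/
def Avoidable (T : ι → Finset β) (b τ : ℝ) (P : (ι → β) → Prop) : Prop :=
  ∃ (E : Type) (_ : Fintype E) (_ : DecidableEq E) (A : E → (ι → β) → Prop)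
    (D : E → Finset ι) (w : E → ℝ),
    (∀ e, Dep (D e) (A e)) ∧ (∀ e, (D e).Nonempty) ∧ (∀ e, 0 ≤ w e) ∧
    (∀ e, cnt T (A e) ≤ w e * cnt T (fun _ => True)) ∧
    (∀ i, ∑ e ∈ univ.filter (fun e => i ∈ D e), w e * b ^ #(D e) ≤ τ) ∧
    ∀ ω ∈ Fintype.piFinset T, (∀ e, ¬ A e ω) → P ω

theorem Avoidable.and {T : ι → Finset β} {b τ τ' : ℝ} {P P' : (ι → β) → Prop}
    (h : Avoidable T b τ P) (h' : Avoidable T b τ' P') :
    Avoidable T b (τ + τ') (fun ω => P ω ∧ P' ω) := by
  obtain ⟨E, _, _, A, D, w, h1, h2, h3, h4, h5, h6⟩ := h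
  obtain ⟨E', _, _, A', D', w', h1', h2', h3', h4', h5', h6'⟩ := h'
  refine ⟨E ⊕ E', inferInstance, inferInstance, Sum.elim A A', Sum.elim D D', Sum.elim w w',
    ?_, ?_, ?_, ?_, ?_, ?_⟩
  · rintro (e | e)
    · exact h1 e
    · exact h1' e
  · rintro (e | e)
    · exact h2 e
    · exact h2' e
  · rintro (e | e)
    · exact h3 e
    · exact h3' e
  · rintro (e | e)
    · exact h4 e
    · exact h4' e
  · intro i
    have a1 := h5 i
    have a2 := h5' i
    rw [sum_filter] at a1 a2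
    rw [sum_filter, Fintype.sum_sum_type]
    exact add_le_add a1 a2
  · intro ω hω hA
    exact ⟨h6 ω hω fun e => hA (Sum.inl e), h6' ω hω fun e => hA (Sum.inr e)⟩

theorem Avoidable.exists {T : ι → Finset β} (hT : ∀ i, (T i).Nonempty) {b τ : ℝ} (hb : 1 < b)
    {P : (ι → β) → Prop} (h : Avoidable T b τ P) (hτ : τ ≤ 1 - 1 / b) :
    ∃ ω ∈ Fintype.piFinset T, P ω := by
  obtain ⟨E, _, _, A, D, w, h1, h2, h3, h4, h5, h6⟩ := h
  obtain ⟨ω, hω, hA⟩ := wlll hT A D h1 h2 w h3 h4 b hb fun i => (h5 i).trans hτ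
  exact ⟨ω, hω, h6 ω hω hA⟩

theorem sum_inj_le {α γ : Type*} [DecidableEq γ] (s : Finset α) (t : Finset γ) (φ : α → γ)
    (hφ : ∀ a ∈ s, φ a ∈ t) (hinj : Set.InjOn φ s) (g : γ → ℝ) (hg : ∀ x ∈ t, 0 ≤ g x) :
    ∑ a ∈ s, g (φ a) ≤ ∑ x ∈ t, g x := by
  rw [← sum_image (f := g) hinj]
  apply sum_le_sum_of_subset_of_nonneg
  · intro x hx
    obtain ⟨a, ha, rfl⟩ := mem_image.1 hx
    exact hφ a ha
  · intro x hx _; exact hg x hx

section conflict

variable {S : Type} [Fintype S] [DecidableEq S]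

/-- conflicts: two coordinates of different owners take the same value -/
theorem conflict_avoidable {O : Type} [DecidableEq O] (own : ι → O) (Sl T : ι → Finset S)
    (N m0 : ℕ) (n1 : ℝ)
    (hn1 : 0 < n1) (hTS : ∀ i s, s ∈ Sl i → n1 ≤ #(T i))
    (hN : ∀ i, #(Sl i) ≤ N) (hm : ∀ s, #(univ.filter fun i => s ∈ Sl i) ≤ m0) (b : ℝ)
    (hb : 1 < b) :
    Avoidable T b (2 * N * m0 * b ^ 2 / n1 ^ 2)
      (fun ω => ∀ i i' s, own i ≠ own i' → s ∈ Sl i → s ∈ Sl i' → ω i = s → ω i' ≠ s) := by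
  classical
  refine ⟨{p : S × ι × ι // own p.2.1 ≠ own p.2.2 ∧ p.1 ∈ Sl p.2.1 ∧ p.1 ∈ Sl p.2.2},
    inferInstance, inferInstance, fun e ω => ω e.1.2.1 = e.1.1 ∧ ω e.1.2.2 = e.1.1,
    fun e => {e.1.2.1, e.1.2.2}, fun _ => (1 / n1) ^ 2, ?_, ?_, ?_, ?_, ?_, ?_⟩
  · intro e ω ω' h
    have e1 := h e.1.2.1 (by simp)
    have e2 := h e.1.2.2 (by simp)
    simp only [e1, e2]
  · intro e; exact ⟨e.1.2.1, by simp⟩
  · intro e; positivity
  · rintro ⟨⟨s, i, i'⟩, hne, hs, hs'⟩
    have hne' : i ≠ i' := fun h => hne (by rw [h])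
    have h1 := all_in_bound (T := T) ({i, i'} : Finset ι) (fun _ x => x = s) (1 / n1) ?_
    · rw [card_pair hne'] at h1
      refine le_trans (cnt_mono ?_) h1
      rintro ω ⟨ha, hb⟩ j hj
      rcases mem_insert.1 hj with rfl | hj
      · exact ha
      · rw [mem_singleton] at hj; subst hj; exact hb
    · intro j hj
      have hj' : n1 ≤ #(T j) := by
        rcases mem_insert.1 hj with rfl | hj
        · exact hTS _ s hs
        · rw [mem_singleton] at hj; subst hj; exact hTS _ s hs'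
      have h2 : (#((T j).filter fun x => x = s) : ℝ) ≤ 1 := by
        have : #((T j).filter fun x => x = s) ≤ 1 := by
          rw [card_le_one]
          intro x hx y hy
          rw [mem_filter] at hx hy
          rw [hx.2, hy.2]
        exact_mod_cast this
      refine h2.trans ?_
      rw [one_div, ← div_eq_inv_mul, le_div_iff₀ hn1, one_mul]
      exact hj'
  · intro i
    have hcard : ∀ e : {p : S × ι × ι // own p.2.1 ≠ own p.2.2 ∧ p.1 ∈ Sl p.2.1 ∧ p.1 ∈ Sl p.2.2},
        #({e.1.2.1, e.1.2.2} : Finset ι) = 2 := by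
      intro e
      apply card_pair
      intro h; exact e.2.1 (by rw [h])
    rw [sum_congr rfl fun e _ => by rw [hcard e], sum_const, nsmul_eq_mul]
    have h1 : #(univ.filter fun e : {p : S × ι × ι //
        own p.2.1 ≠ own p.2.2 ∧ p.1 ∈ Sl p.2.1 ∧ p.1 ∈ Sl p.2.2} =>
        i ∈ ({e.1.2.1, e.1.2.2} : Finset ι)) ≤ 2 * (N * m0) := by
      set U : Finset (S × ι) := (Sl i).sigma (fun s => univ.filter fun i' => s ∈ Sl i')
        |>.image fun p => (p.1, p.2) with hU
      have hUc : #U ≤ N * m0 := by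
        refine card_image_le.trans ?_
        rw [card_sigma]
        calc ∑ s ∈ Sl i, #(univ.filter fun i' => s ∈ Sl i') ≤ ∑ s ∈ Sl i, m0 :=
              sum_le_sum fun s _ => hm s
          _ = #(Sl i) * m0 := by rw [sum_const, smul_eq_mul]
          _ ≤ N * m0 := Nat.mul_le_mul_right _ (hN i)
      have hUm : ∀ s i', (s, i') ∈ U ↔ s ∈ Sl i ∧ s ∈ Sl i' := by
        intro s i'
        rw [hU, mem_image]
        constructor
        · rintro ⟨⟨a, b⟩, h, heq⟩
          rw [mem_sigma, mem_filter] at h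
          simp only [Prod.mk.injEq] at heq
          obtain ⟨rfl, rfl⟩ := heq
          exact ⟨h.1, h.2.2⟩
        · rintro ⟨h1, h2⟩
          exact ⟨⟨s, i'⟩, by rw [mem_sigma, mem_filter]; exact ⟨h1, mem_univ _, h2⟩, rfl⟩
      have hle : #(univ.filter fun e : {p : S × ι × ι //
          own p.2.1 ≠ own p.2.2 ∧ p.1 ∈ Sl p.2.1 ∧ p.1 ∈ Sl p.2.2} =>
          i ∈ ({e.1.2.1, e.1.2.2} : Finset ι)) ≤ #(U.image (fun p => (p.1, i, p.2)) ∪
            U.image (fun p => (p.1, p.2, i))) := by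
        refine card_le_card_of_injOn (fun e => e.1) ?_ ?_
        · rintro ⟨⟨s, a, a'⟩, h0, h1, h2⟩ he
          rw [mem_coe, mem_filter] at he
          have he := he.2
          simp only [mem_insert, mem_singleton] at he
          rw [mem_coe, mem_union, mem_image, mem_image]
          rcases he with he | he
          · left
            refine ⟨(s, a'), (hUm _ _).2 ⟨?_, h2⟩, ?_⟩
            · rw [he]; exact h1
            · simp [he]
          · right
            refine ⟨(s, a), (hUm _ _).2 ⟨?_, h1⟩, ?_⟩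
            · rw [he]; exact h2
            · simp [he]
        · intro a _ b _ h; exact Subtype.ext h
      refine hle.trans ((card_union_le _ _).trans ?_)
      have h2 := card_image_le (s := U) (f := fun p => (p.1, i, p.2))
      have h3 := card_image_le (s := U) (f := fun p => (p.1, p.2, i))
      omega
    have h2 : (#(univ.filter fun e : {p : S × ι × ι //
        own p.2.1 ≠ own p.2.2 ∧ p.1 ∈ Sl p.2.1 ∧ p.1 ∈ Sl p.2.2} =>
        i ∈ ({e.1.2.1, e.1.2.2} : Finset ι)) : ℝ) ≤ 2 * (N * m0) := by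
      exact_mod_cast h1
    calc _ ≤ (2 * ((N : ℝ) * m0)) * ((1 / n1) ^ 2 * b ^ 2) :=
          mul_le_mul_of_nonneg_right h2 (by positivity)
      _ = _ := by
        rw [one_div, inv_pow]; field_simp
  · intro ω _ hA i i' s hne hs hs' h1 h2
    exact hA ⟨(s, i, i'), hne, hs, hs'⟩ ⟨h1, h2⟩

end conflict

end Pool.Agent.Helper21.LEL
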