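import Mathlib
import Pool.Agent.Helper21.LEL.Avoid

/-!
Lower tail of a sum of independent events on a box.
-/

set_option autoImplicit false
set_option linter.unusedSectionVars false

namespace Pool.Agent.Helper21.LEL

open Finset

variable {ι : Type*} [Fintype ι] [DecidableEq ι] {β : Type*} [DecidableEq β]

/-- function depending on few coordinates -/
def DepF (D : Finset ι) (f : (ι → β) → ℝ) : Prop :=
  ∀ ω ω' : ι → β, (∀ i ∈ D, ω i = ω' i) → f ω = f ω'

theorem sum_indep {T : ι → Finset β} {D D' : Finset ι} (hD : Disjoint D D')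
    {f g : (ι → β) → ℝ} (hf : DepF D f) (hg : DepF D' g) :
    (∑ ω ∈ Fintype.piFinset T, f ω * g ω) * (#(Fintype.piFinset T) : ℝ)
      = (∑ ω ∈ Fintype.piFinset T, f ω) * ∑ ω ∈ Fintype.piFinset T, g ω := by
  have memb : ∀ x y : ι → β, x ∈ Fintype.piFinset T → y ∈ Fintype.piFinset T →
      D.piecewise x y ∈ Fintype.piFinset T := by
    intro x y hx hy
    rw [Fintype.mem_piFinset] at *
    intro i
    by_cases hi : i ∈ D
    · simpa [hi] using hx i
    · simpa [hi] using hy i
  have h1 : (∑ ω ∈ Fintype.piFinset T, f ω) * ∑ ω ∈ Fintype.piFinset T, g ω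
      = ∑ p ∈ Fintype.piFinset T ×ˢ Fintype.piFinset T, f p.1 * g p.2 := by
    rw [sum_mul_sum, sum_product]
  have h2 : (∑ ω ∈ Fintype.piFinset T, f ω * g ω) * (#(Fintype.piFinset T) : ℝ)
      = ∑ p ∈ Fintype.piFinset T ×ˢ Fintype.piFinset T, f p.1 * g p.1 := by
    rw [sum_product, sum_mul]
    apply sum_congr rfl
    intro ω _
    simp only [sum_const, nsmul_eq_mul]
    ring
  rw [h1, h2]
  refine sum_nbij' (fun p => (D.piecewise p.1 p.2, D.piecewise p.2 p.1))
    (fun p => (D.piecewise p.1 p.2, D.piecewise p.2 p.1)) ?_ ?_ ?_ ?_ ?_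
  · rintro ⟨x, y⟩ h
    rw [mem_product] at h ⊢
    exact ⟨memb x y h.1 h.2, memb y x h.2 h.1⟩
  · rintro ⟨x, y⟩ h
    rw [mem_product] at h ⊢
    exact ⟨memb x y h.1 h.2, memb y x h.2 h.1⟩
  · rintro ⟨x, y⟩ _
    simp only [Prod.mk.injEq]
    constructor <;> · ext i; by_cases hi : i ∈ D <;> simp [hi]
  · rintro ⟨x, y⟩ _
    simp only [Prod.mk.injEq]
    constructor <;> · ext i; by_cases hi : i ∈ D <;> simp [hi]
  · rintro ⟨x, y⟩ _
    have e1 : f x = f (D.piecewise x y) := hf _ _ fun i hi => by simp [hi]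
    have e2 : g x = g (D.piecewise y x) := hg _ _ fun i hi => by
      have : i ∉ D := fun h => (Finset.disjoint_left.1 hD h) hi
      simp [this]
    simp only [e1, e2]

theorem cnt_eq_sum' (T : ι → Finset β) (P : (ι → β) → Prop) [DecidablePred P] :
    cnt T P = ∑ ω ∈ Fintype.piFinset T, (if P ω then (1 : ℝ) else 0) := by
  rw [cnt_eq, card_filter]
  push_cast
  rfl

open Classical in
theorem lower_tail {T : ι → Finset β} (hT : ∀ i, (T i).Nonempty) {κ : Type*} [DecidableEq κ]
    (S : Finset κ) (D : κ → Finset ι) (hD : ∀ x ∈ S, ∀ y ∈ S, x ≠ y → Disjoint (D x) (D y))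
    (P : κ → (ι → β) → Prop) (hP : ∀ x, Dep (D x) (P x)) (p : ℝ) (hp1 : p ≤ 1)
    (hp : ∀ x ∈ S, p * cnt T (fun _ => True) ≤ cnt T (P x)) (j : ℕ) :
    cnt T (fun ω => #(S.filter fun x => P x ω) < j)
      ≤ 2 ^ j * (1 - p / 2) ^ #S * cnt T (fun _ => True) := by
  set Z := cnt T (fun _ => True) with hZ
  have hZ0 : 0 < Z := cnt_true_pos hT
  have hZc : (#(Fintype.piFinset T) : ℝ) = Z := by
    rw [hZ, cnt_eq, filter_true_of_mem (fun _ _ => trivial)]
  set h : κ → (ι → β) → ℝ := fun x ω => if P x ω then 1 / 2 else 1 with hh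
  have hdep : ∀ x, DepF (D x) (h x) := by
    intro x ω ω' he
    simp only [hh]
    have := hP x ω ω' he
    by_cases hc : P x ω
    · simp [hc, this.1 hc]
    · have hc' : ¬ P x ω' := fun h' => hc (this.2 h')
      simp [hc, hc']
  have hsum1 : ∀ x, ∑ ω ∈ Fintype.piFinset T, h x ω = Z - cnt T (P x) / 2 := by
    intro x
    have e1 : ∀ ω, h x ω = 1 - (if P x ω then (1 : ℝ) else 0) / 2 := by
      intro ω; simp only [hh]; split_ifs <;> norm_num
    rw [sum_congr rfl fun ω _ => e1 ω, sum_sub_distrib, ← sum_div, sum_const, nsmul_eq_mul,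
      mul_one, hZc, cnt_eq_sum]
  have key : ∀ S' ⊆ S, ∑ ω ∈ Fintype.piFinset T, ∏ x ∈ S', h x ω ≤ (1 - p / 2) ^ #S' * Z := by
    intro S'
    induction S' using Finset.induction_on with
    | empty =>
      intro _
      simp only [prod_empty, sum_const, nsmul_eq_mul, mul_one, card_empty, pow_zero, one_mul]
      exact hZc.le
    | insert a S' ha ih =>
      intro hsub
      have ih := ih fun x hx => hsub (mem_insert_of_mem hx)
      have haS := hsub (mem_insert_self _ _)
      have h1 := sum_indep (T := T) (D := D a) (D' := S'.biUnion D) (f := h a)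
        (g := fun ω => ∏ x ∈ S', h x ω) (by
          rw [Finset.disjoint_biUnion_right]
          intro x hx
          exact hD a haS x (hsub (mem_insert_of_mem hx)) (fun hh => ha (hh ▸ hx))) (hdep a)
        (by
          intro ω ω' he
          apply prod_congr rfl
          intro x hx
          exact hdep x ω ω' fun i hi => he i (mem_biUnion.2 ⟨x, hx, hi⟩))
      rw [hZc, hsum1] at h1
      have h2 : ∑ ω ∈ Fintype.piFinset T, ∏ x ∈ insert a S', h x ω
          = ∑ ω ∈ Fintype.piFinset T, h a ω * ∏ x ∈ S', h x ω := by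
        apply sum_congr rfl
        intro ω _
        rw [prod_insert ha]
      rw [h2, card_insert_of_notMem ha, pow_succ]
      have h3 : Z - cnt T (P a) / 2 ≤ (1 - p / 2) * Z := by
        have := hp a haS
        linarith
      have h4 : 0 ≤ ∑ ω ∈ Fintype.piFinset T, ∏ x ∈ S', h x ω := by
        apply sum_nonneg; intro ω _
        apply prod_nonneg; intro x _
        simp only [hh]; split_ifs <;> norm_num
      have h5 : (∑ ω ∈ Fintype.piFinset T, h a ω * ∏ x ∈ S', h x ω) * Z
          ≤ ((1 - p / 2) ^ #S' * (1 - p / 2) * Z) * Z := by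
        rw [h1]
        calc (Z - cnt T (P a) / 2) * ∑ ω ∈ Fintype.piFinset T, ∏ x ∈ S', h x ω
            ≤ ((1 - p / 2) * Z) * ∑ ω ∈ Fintype.piFinset T, ∏ x ∈ S', h x ω :=
              mul_le_mul_of_nonneg_right h3 h4
          _ ≤ ((1 - p / 2) * Z) * ((1 - p / 2) ^ #S' * Z) := by
              apply mul_le_mul_of_nonneg_left ih
              have : 0 ≤ 1 - p / 2 := by linarith
              positivity
          _ = _ := by ring
      exact le_of_mul_le_mul_right h5 hZ0
  rw [cnt_eq_sum']
  calc ∑ ω ∈ Fintype.piFinset T, (if #(S.filter fun x => P x ω) < j then (1 : ℝ) else 0)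
      ≤ ∑ ω ∈ Fintype.piFinset T, 2 ^ j * ∏ x ∈ S, h x ω := by
        apply sum_le_sum
        intro ω _
        have e1 : ∏ x ∈ S, h x ω = (1 / 2) ^ #(S.filter fun x => P x ω) := by
          rw [← prod_filter_mul_prod_filter_not S (fun x => P x ω)]
          have e2 : ∏ x ∈ S.filter (fun x => P x ω), h x ω
              = (1 / 2) ^ #(S.filter fun x => P x ω) := by
            rw [← prod_const]
            apply prod_congr rfl
            intro x hx
            simp only [hh, (mem_filter.1 hx).2, if_true]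
          have e3 : ∏ x ∈ S.filter (fun x => ¬ P x ω), h x ω = 1 := by
            apply prod_eq_one
            intro x hx
            simp only [hh, (mem_filter.1 hx).2, if_false]
          rw [e2, e3, mul_one]
        rw [e1]
        by_cases hc : #(S.filter fun x => P x ω) < j
        · simp only [hc, if_true]
          set m := #(S.filter fun x => P x ω)
          have e2 : (2 : ℝ) ^ m * (1 / 2) ^ m = 1 := by rw [← mul_pow]; norm_num
          calc (1 : ℝ) = 2 ^ m * (1 / 2) ^ m := e2.symm
            _ ≤ 2 ^ j * (1 / 2) ^ m :=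
              mul_le_mul_of_nonneg_right (pow_le_pow_right₀ (by norm_num) hc.le) (by positivity)
        · simp only [hc, if_false]; positivity
    _ = 2 ^ j * ∑ ω ∈ Fintype.piFinset T, ∏ x ∈ S, h x ω := by rw [mul_sum]
    _ ≤ 2 ^ j * ((1 - p / 2) ^ #S * Z) :=
        mul_le_mul_of_nonneg_left (key S subset_rfl) (by positivity)
    _ = _ := by ring

end Pool.Agent.Helper21.LEL
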