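import Mathlib
import Pool.Agent.Helper21.LEC.Det
import Pool.Agent.Helper21.LEL.Tail

/-!
Preliminary stage: the sets `Γ v`.
-/

set_option autoImplicit false
set_option linter.unusedSectionVars false
set_option linter.unusedVariables false

namespace Pool.Agent.Helper21.LEL

open Finset Pool.Agent.Helper21.LEC

section generic

variable {ι : Type} [Fintype ι] [DecidableEq ι] {β : Type} [DecidableEq β]

/-- lower bound for the probability of a box event -/
theorem all_in_lower {T : ι → Finset β} (D : Finset ι) (P : ι → β → Prop)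
    [∀ i, DecidablePred (P i)] (q : ι → ℝ) (hq : ∀ i ∈ D, 0 ≤ q i)
    (h : ∀ i ∈ D, q i * #(T i) ≤ (#((T i).filter (P i)) : ℝ)) :
    (∏ i ∈ D, q i) * cnt T (fun _ => True) ≤ cnt T (fun ω => ∀ i ∈ D, P i (ω i)) := by
  classical
  rw [cnt_true, cnt_eq]
  have h1 : (Fintype.piFinset T).filter (fun ω => ∀ i ∈ D, P i (ω i))
      = Fintype.piFinset fun i => if i ∈ D then (T i).filter (P i) else T i := by
    ext ω
    rw [mem_filter, Fintype.mem_piFinset, Fintype.mem_piFinset]
    constructor
    · rintro ⟨h1, h2⟩ i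
      by_cases hi : i ∈ D
      · simp only [hi, if_true, mem_filter]
        exact ⟨h1 i, h2 i hi⟩
      · simp only [hi, if_false]; exact h1 i
    · intro h1
      constructor
      · intro i
        have := h1 i
        by_cases hi : i ∈ D
        · simp only [hi, if_true, mem_filter] at this
          exact this.1
        · simpa only [hi, if_false] using this
      · intro i hi
        have := h1 i
        simp only [hi, if_true, mem_filter] at this
        exact this.2
  rw [h1, Fintype.card_piFinset]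
  push_cast
  have h2 : ∏ i, ((if i ∈ D then q i else 1) * (#(T i) : ℝ))
      ≤ ∏ i, ((#(if i ∈ D then (T i).filter (P i) else T i) : ℕ) : ℝ) := by
    apply prod_le_prod
    · intro i _
      by_cases hi : i ∈ D
      · simp only [hi, if_true]
        exact mul_nonneg (hq i hi) (by positivity)
      · simp only [hi, if_false]; positivity
    · intro i _
      by_cases hi : i ∈ D
      · simp only [hi, if_true]; exact h i hi
      · simp only [hi, if_false, one_mul]; exact le_rfl
  refine le_trans (le_of_eq ?_) h2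
  rw [prod_mul_distrib, prod_ite_mem, univ_inter]

open Classical in
theorem tail_class {T : ι → Finset β} (hT : ∀ i, (T i).Nonempty) (b : ℝ) (hb0 : 0 ≤ b)
    {E : Type} [Fintype E] [DecidableEq E] {κ : Type} [DecidableEq κ]
    (S : E → Finset κ) (D : E → κ → Finset ι)
    (hD : ∀ e, ∀ x ∈ S e, ∀ y ∈ S e, x ≠ y → Disjoint (D e x) (D e y))
    (P : E → κ → (ι → β) → Prop) (hP : ∀ e x, Dep (D e x) (P e x)) (p : ℝ) (hp1 : p ≤ 1)
    (hp : ∀ e, ∀ x ∈ S e, p * cnt T (fun _ => True) ≤ cnt T (P e x)) (j : ℕ) (w : ℝ)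
    (hw0 : 0 ≤ w) (hw : ∀ e, 2 ^ j * (1 - p / 2) ^ #(S e) ≤ w)
    (hne : ∀ e, ((S e).biUnion (D e)).Nonempty) (hb : ∀ e, b ^ #((S e).biUnion (D e)) ≤ 3)
    (m : ℕ) (hm : ∀ i, #(univ.filter fun e => i ∈ (S e).biUnion (D e)) ≤ m) :
    Avoidable T b (m * (w * 3)) (fun ω => ∀ e, j ≤ #((S e).filter fun x => P e x ω)) := by
  refine ⟨E, inferInstance, inferInstance,
    fun e ω => #((S e).filter fun x => P e x ω) < j, fun e => (S e).biUnion (D e), fun _ => w,
    ?_, hne, fun _ => hw0, ?_, ?_, ?_⟩
  · intro e ω ω' h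
    have : (S e).filter (fun x => P e x ω) = (S e).filter fun x => P e x ω' := by
      apply filter_congr
      intro x hx
      exact hP e x ω ω' fun i hi => h i (mem_biUnion.2 ⟨x, hx, hi⟩)
    simp only [this]
  · intro e
    exact (lower_tail hT (S e) (D e) (hD e) (P e) (hP e) p hp1 (hp e) j).trans
      (mul_le_mul_of_nonneg_right (hw e) (cnt_nonneg _ _))
  · intro i
    calc ∑ e ∈ univ.filter (fun e => i ∈ (S e).biUnion (D e)), w * b ^ #((S e).biUnion (D e))
        ≤ ∑ e ∈ univ.filter (fun e => i ∈ (S e).biUnion (D e)), w * 3 :=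
          sum_le_sum fun e _ => mul_le_mul_of_nonneg_left (hb e) hw0
      _ = #(univ.filter fun e => i ∈ (S e).biUnion (D e)) * (w * 3) := by
          rw [sum_const, nsmul_eq_mul]
      _ ≤ m * (w * 3) := by
          apply mul_le_mul_of_nonneg_right _ (by positivity)
          exact_mod_cast hm i
  · intro ω _ h e
    exact not_lt.1 (h e)

end generic

variable {V : Type} [Fintype V] [DecidableEq V] {C : Type} [Fintype C] [DecidableEq C]

theorem card_ne0 : #((univ : Finset (Fin 512)).filter fun x => x ≠ 0) = 511 := by decide +kernel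

theorem card_eq0 : #((univ : Finset (Fin 512)).filter fun x => x = 0) = 1 := by decide +kernel

open Classical in
/-- preliminary stage -/
theorem pre (B : V → Finset V) (L : V → V → Finset C) (G : V → Finset (Finset C))
    (A : V → Finset C → Finset V) (rep : V → Finset C → V → C) (N n1 m2 s0 s1 : ℕ)
    (hL : ∀ u, ∀ v ∈ fw B u, #(L u v) = N) (hN : 0 < N) (hs0 : 0 < s0)
    (hA : ∀ u, ∀ X ∈ G u, s0 ≤ #(A u X) ∧ A u X ⊆ fw B u)
    (hrep : ∀ u, ∀ X ∈ G u, ∀ v ∈ A u X, rep u X v ∈ X)
    (hGd : ∀ u, ∀ X ∈ G u, ∀ Y ∈ G u, X ≠ Y → Disjoint X Y)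
    (huu : ∀ u, u ∉ B u) (hdeg : ∀ u, #(fw B u) + #(B u) ≤ N)
    (w1 w2 w3 : ℝ) (hw1 : (2 : ℝ) ^ n1 * (1 - 511 / 524288) ^ N ≤ w1)
    (hw2 : (2 : ℝ) ^ m2 * (513 / 1024) ^ N ≤ w2) (hw3 : (2 : ℝ) ^ s1 * (513 / 1024) ^ s0 ≤ w3)
    (hsum : N * (w1 * 3) + (N * (w2 * 3) + N * (w3 * 3)) ≤ 1 / (2 * (N : ℝ) + 1)) :
    ∃ Γ : V → Finset C, (∀ u, ∀ v ∈ fw B u, n1 ≤ #((L u v).filter fun c => c ∈ Γ v ∧ c ∉ Γ u)) ∧
      (∀ u, ∀ v ∈ fw B u, m2 ≤ #((L u v).filter fun c => c ∈ Γ v)) ∧
      (∀ u, ∀ X ∈ G u, s1 ≤ #((A u X).filter fun v => rep u X v ∈ Γ v)) := by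
  have hNr : (0 : ℝ) < N := by exact_mod_cast hN
  set b : ℝ := 1 + 1 / (2 * (N : ℝ)) with hb
  have hb1 : 1 < b := by
    have : 0 < 1 / (2 * (N : ℝ)) := by positivity
    linarith
  have hb0 : 0 ≤ b := by linarith
  have hbpow : ∀ m, m ≤ 2 * N → b ^ m ≤ 3 := by
    intro m hm
    have h1 : b ≤ Real.exp (1 / (2 * (N : ℝ))) := by
      have := Real.add_one_le_exp (1 / (2 * (N : ℝ))); rw [hb]; linarith
    calc b ^ m ≤ b ^ (2 * N) := pow_le_pow_right₀ hb1.le hm
      _ ≤ (Real.exp (1 / (2 * (N : ℝ)))) ^ (2 * N) := pow_le_pow_left₀ hb0 h1 _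
      _ = Real.exp 1 := by
          rw [← Real.exp_nat_mul]; congr 1; push_cast; field_simp
      _ ≤ 3 := Real.exp_one_lt_d9.le.trans (by norm_num)
  set T : V × C → Finset (Fin 512) := fun _ => univ with hT
  have hTne : ∀ i, (T i).Nonempty := fun i => univ_nonempty
  have hTc : ∀ i, (#(T i) : ℝ) = 512 := by intro i; simp [hT]
  have hw10 : 0 ≤ w1 := le_trans (by positivity) hw1
  have hw20 : 0 ≤ w2 := le_trans (by positivity) hw2
  have hw30 : 0 ≤ w3 := le_trans (by positivity) hw3
  -- probability of `ω i ≠ 0`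
  have pne : ∀ i : V × C, (511 / 512 : ℝ) * cnt T (fun _ => True)
      ≤ cnt T (fun ω => ω i ≠ 0) := by
    intro i
    have h1 := all_in_lower (T := T) {i} (fun _ x => x ≠ 0) (fun _ => 511 / 512)
      (fun _ _ => by norm_num) (fun i' _ => by
        rw [hTc i']
        have : #((T i').filter fun x => x ≠ 0) = 511 := card_ne0
        rw [this]; norm_num)
    rw [prod_singleton] at h1
    refine h1.trans (cnt_mono ?_)
    intro ω h; exact h i (mem_singleton_self _)
  have ppair : ∀ i i' : V × C, i ≠ i' → (511 / 262144 : ℝ) * cnt T (fun _ => True)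
      ≤ cnt T (fun ω => ω i ≠ 0 ∧ ω i' = 0) := by
    intro i i' hne
    have h1 := all_in_lower (T := T) {i, i'} (fun z x => if z = i then x ≠ 0 else x = 0)
      (fun z => if z = i then 511 / 512 else 1 / 512)
      (fun z _ => by split_ifs <;> norm_num) (fun z _ => by
        rw [hTc z]
        by_cases hz : z = i
        · simp only [hz, if_true]
          have : #((T i).filter fun x => x ≠ 0) = 511 := card_ne0
          rw [this]; norm_num
        · simp only [hz, if_false]
          have : #((T z).filter fun x => x = 0) = 1 := card_eq0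
          rw [this]; norm_num)
    rw [prod_pair hne] at h1
    have hne' : ¬ i' = i := fun h => hne h.symm
    simp only [if_true, hne', if_false] at h1
    have e1 : (511 / 262144 : ℝ) = 511 / 512 * (1 / 512) := by norm_num
    rw [e1]
    refine h1.trans (cnt_mono ?_)
    intro ω h
    have h2 := h i (by simp)
    have h3 := h i' (by simp)
    simp only [if_true] at h2
    simp only [hne', if_false] at h3
    exact ⟨h2, h3⟩
  have vne : ∀ u, ∀ v ∈ fw B u, v ≠ u := by
    intro u v hv h
    subst h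
    exact huu _ (mem_fw.1 hv)
  -- class 1
  have c1 := tail_class (T := T) hTne b hb0 (E := {p : V × V // p.2 ∈ fw B p.1}) (κ := C)
    (fun e => L e.1.1 e.1.2) (fun e c => {(e.1.2, c), (e.1.1, c)})
    (fun e c _ c' _ hne => by
      rw [Finset.disjoint_left]
      intro z hz hz'
      simp only [mem_insert, mem_singleton] at hz hz'
      have h1 : z.2 = c := by rcases hz with h | h <;> rw [h]
      have h2 : z.2 = c' := by rcases hz' with h | h <;> rw [h]
      exact hne (h1.symm.trans h2))
    (fun e c ω => ω (e.1.2, c) ≠ 0 ∧ ω (e.1.1, c) = 0)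
    (fun e c ω ω' h => by
      have a1 := h (e.1.2, c) (by simp)
      have a2 := h (e.1.1, c) (by simp)
      simp only [a1, a2])
    (511 / 262144) (by norm_num)
    (fun e c _ => ppair _ _ (fun h => vne _ _ e.2 (Prod.ext_iff.1 h).1)) n1 w1 hw10
    (fun e => by
      rw [hL _ _ e.2]
      have : (1 - 511 / 262144 / 2 : ℝ) = 1 - 511 / 524288 := by norm_num
      rw [this]; exact hw1)
    (fun e => by
      have h1 : (L e.1.1 e.1.2).Nonempty := by
        rw [← card_pos, hL _ _ e.2]; exact hN
      obtain ⟨c, hc⟩ := h1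
      exact ⟨(e.1.2, c), mem_biUnion.2 ⟨c, hc, by simp⟩⟩)
    (fun e => hbpow _ (by
      refine card_biUnion_le.trans ?_
      calc ∑ c ∈ L e.1.1 e.1.2, #({(e.1.2, c), (e.1.1, c)} : Finset (V × C))
          ≤ ∑ c ∈ L e.1.1 e.1.2, 2 := sum_le_sum fun c _ => card_le_two
        _ = 2 * N := by rw [sum_const, smul_eq_mul, hL _ _ e.2, mul_comm])) N
    (fun i => by
      have h1 : #(univ.filter fun e : {p : V × V // p.2 ∈ fw B p.1} =>
          i ∈ (L e.1.1 e.1.2).biUnion fun c => ({(e.1.2, c), (e.1.1, c)} : Finset (V × C)))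
          ≤ #((fw B i.1).image (fun v => (i.1, v)) ∪ (B i.1).image fun u => (u, i.1)) := by
        refine card_le_card_of_injOn (fun e => e.1) ?_ ?_
        · rintro ⟨⟨u, v⟩, he⟩ h
          rw [mem_coe, mem_filter, mem_biUnion] at h
          obtain ⟨-, c, hc, h⟩ := h
          simp only [mem_insert, mem_singleton] at h
          rw [mem_coe, mem_union, mem_image, mem_image]
          rcases h with rfl | rfl
          · right; exact ⟨u, mem_fw.1 he, rfl⟩
          · left; exact ⟨v, he, rfl⟩
        · intro a _ b _ h; exact Subtype.ext h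
      refine h1.trans ((card_union_le _ _).trans ((add_le_add card_image_le card_image_le).trans
        (hdeg i.1))))
  have c2 := tail_class (T := T) hTne b hb0 (E := {p : V × V // p.2 ∈ fw B p.1}) (κ := C)
    (fun e => L e.1.1 e.1.2) (fun e c => {(e.1.2, c)})
    (fun e c _ c' _ hne => by
      rw [disjoint_singleton]
      intro h; exact hne (Prod.ext_iff.1 h).2)
    (fun e c ω => ω (e.1.2, c) ≠ 0)
    (fun e c ω ω' h => by
      have a1 := h (e.1.2, c) (by simp)
      simp only [a1])
    (511 / 512) (by norm_num)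
    (fun e c _ => pne _) m2 w2 hw20
    (fun e => by
      rw [hL _ _ e.2]
      have : (1 - 511 / 512 / 2 : ℝ) = 513 / 1024 := by norm_num
      rw [this]; exact hw2)
    (fun e => by
      have h1 : (L e.1.1 e.1.2).Nonempty := by
        rw [← card_pos, hL _ _ e.2]; exact hN
      obtain ⟨c, hc⟩ := h1
      exact ⟨(e.1.2, c), mem_biUnion.2 ⟨c, hc, by simp⟩⟩)
    (fun e => hbpow _ (by
      refine card_biUnion_le.trans ?_
      calc ∑ c ∈ L e.1.1 e.1.2, #({(e.1.2, c)} : Finset (V × C))
          = ∑ c ∈ L e.1.1 e.1.2, 1 := sum_congr rfl fun c _ => card_singleton _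
        _ ≤ 2 * N := by rw [sum_const, smul_eq_mul, hL _ _ e.2]; omega)) N
    (fun i => by
      have h1 : #(univ.filter fun e : {p : V × V // p.2 ∈ fw B p.1} =>
          i ∈ (L e.1.1 e.1.2).biUnion fun c => ({(e.1.2, c)} : Finset (V × C)))
          ≤ #((B i.1).image fun u => (u, i.1)) := by
        refine card_le_card_of_injOn (fun e => e.1) ?_ ?_
        · rintro ⟨⟨u, v⟩, he⟩ h
          rw [mem_coe, mem_filter, mem_biUnion] at h
          obtain ⟨-, c, hc, h⟩ := h
          rw [mem_singleton] at h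
          subst h
          rw [mem_coe, mem_image]
          exact ⟨u, mem_fw.1 he, rfl⟩
        · intro a _ b _ h; exact Subtype.ext h
      have := hdeg i.1
      exact h1.trans (card_image_le.trans (by omega)))
  have c3 := tail_class (T := T) hTne b hb0 (E := {p : V × Finset C // p.2 ∈ G p.1}) (κ := V)
    (fun e => A e.1.1 e.1.2) (fun e v => {(v, rep e.1.1 e.1.2 v)})
    (fun e v _ v' _ hne => by
      rw [disjoint_singleton]
      intro h; exact hne (Prod.ext_iff.1 h).1)
    (fun e v ω => ω (v, rep e.1.1 e.1.2 v) ≠ 0)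
    (fun e v ω ω' h => by
      have a1 := h (v, rep e.1.1 e.1.2 v) (by simp)
      simp only [a1])
    (511 / 512) (by norm_num)
    (fun e c _ => pne _) s1 w3 hw30
    (fun e => by
      have : (1 - 511 / 512 / 2 : ℝ) = 513 / 1024 := by norm_num
      rw [this]
      refine le_trans ?_ hw3
      apply mul_le_mul_of_nonneg_left _ (by positivity)
      exact pow_le_pow_of_le_one (by norm_num) (by norm_num) (hA _ _ e.2).1)
    (fun e => by
      have h1 : (A e.1.1 e.1.2).Nonempty := by
        rw [← card_pos]; exact lt_of_lt_of_le hs0 (hA _ _ e.2).1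
      obtain ⟨v, hv⟩ := h1
      exact ⟨(v, rep e.1.1 e.1.2 v), mem_biUnion.2 ⟨v, hv, by simp⟩⟩)
    (fun e => hbpow _ (by
      refine card_biUnion_le.trans ?_
      have h1 := card_le_card (hA _ _ e.2).2
      have h2 := hdeg e.1.1
      calc ∑ v ∈ A e.1.1 e.1.2, #({(v, rep e.1.1 e.1.2 v)} : Finset (V × C))
          = ∑ v ∈ A e.1.1 e.1.2, 1 := sum_congr rfl fun c _ => card_singleton _
        _ ≤ 2 * N := by rw [sum_const, smul_eq_mul]; omega)) N
    (fun i => by
      have h1 : #(univ.filter fun e : {p : V × Finset C // p.2 ∈ G p.1} =>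
          i ∈ (A e.1.1 e.1.2).biUnion fun v => ({(v, rep e.1.1 e.1.2 v)} : Finset (V × C)))
          ≤ #(B i.1) := by
        refine card_le_card_of_injOn (fun e => e.1.1) ?_ ?_
        · rintro ⟨⟨u, X⟩, he⟩ h
          rw [mem_coe, mem_filter, mem_biUnion] at h
          obtain ⟨-, v, hv, h⟩ := h
          rw [mem_singleton] at h
          subst h
          exact mem_fw.1 ((hA u X he).2 hv)
        · rintro ⟨⟨u, X⟩, he⟩ h ⟨⟨u', X'⟩, he'⟩ h' heq
          simp only at heq
          subst heq
          rw [mem_coe, mem_filter, mem_biUnion] at h h'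
          obtain ⟨-, v, hv, h⟩ := h
          obtain ⟨-, v', hv', h'⟩ := h'
          rw [mem_singleton] at h h'
          subst h
          simp only [Prod.mk.injEq] at h'
          obtain ⟨rfl, h'⟩ := h'
          have hXX : X = X' := by
            by_contra hne
            have h5 := hrep _ X he _ hv
            have h6 := hrep _ X' he' _ hv'
            simp only at h5 h6
            rw [← h'] at h6
            exact Finset.disjoint_left.1 (hGd _ X he X' he' hne) h5 h6
          subst hXX
          rfl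
      have := hdeg i.1
      exact h1.trans (by omega))
  obtain ⟨ω, -, h1, h2, h3⟩ := (c1.and (c2.and c3)).exists hTne hb1 (by
    have : 1 - 1 / b = 1 / (2 * (N : ℝ) + 1) := by
      rw [hb]; field_simp; ring
    rw [this]; exact hsum)
  refine ⟨fun v => univ.filter fun c => ω (v, c) ≠ 0, ?_, ?_, ?_⟩
  · intro u v hv
    refine (h1 ⟨(u, v), hv⟩).trans (le_of_eq ?_)
    congr 1
    ext c
    simp
  · intro u v hv
    refine (h2 ⟨(u, v), hv⟩).trans (le_of_eq ?_)
    congr 1
    ext c
    simp
  · intro u X hX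
    refine (h3 ⟨(u, X), hX⟩).trans (le_of_eq ?_)
    congr 1
    ext c
    simp

end Pool.Agent.Helper21.LEL
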