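import Mathlib
import Pool.Agent.Helper21.LEL.Avoid

/-!
Two classes of star events.
-/

set_option autoImplicit false
set_option linter.unusedSectionVars false
set_option linter.unusedVariables false

namespace Pool.Agent.Helper21.LEL

open Finset

variable {ι : Type} [Fintype ι] [DecidableEq ι] {β : Type} [DecidableEq β]
  {γ : Type} [DecidableEq γ] {V : Type} [Fintype V] [DecidableEq V]

/-- block of coordinates -/
def blk {K : Type} [DecidableEq K] {H : ℕ} (idx : V → K → Fin H → ι) (u : V) (S : Finset K) :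
    Finset ι :=
  (S ×ˢ (univ : Finset (Fin H))).image fun p => idx u p.1 p.2

theorem mem_blk {K : Type} [DecidableEq K] {H : ℕ} {idx : V → K → Fin H → ι} {u : V}
    {S : Finset K} {i : ι} : i ∈ blk idx u S ↔ ∃ v ∈ S, ∃ a, idx u v a = i := by
  rw [blk, mem_image]
  constructor
  · rintro ⟨⟨v, a⟩, h, rfl⟩
    exact ⟨v, (mem_product.1 h).1, a, rfl⟩
  · rintro ⟨v, hv, a, rfl⟩
    exact ⟨(v, a), mem_product.2 ⟨hv, mem_univ _⟩, rfl⟩

theorem card_blk {K : Type} [DecidableEq K] {H : ℕ} {idx : V → K → Fin H → ι}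
    (hidx : ∀ u v a u' v' a', idx u v a = idx u' v' a' → u = u' ∧ v = v' ∧ a = a') (u : V)
    (S : Finset K) : #(blk idx u S) = H * #S := by
  rw [blk, card_image_of_injOn, card_product, card_univ, Fintype.card_fin, mul_comm]
  rintro ⟨v, a⟩ _ ⟨v', a'⟩ _ h
  obtain ⟨-, h1, h2⟩ := hidx _ _ _ _ _ _ h
  exact Prod.ext h1 h2

theorem distinct_class {H : ℕ} (hH : 0 < H) {T : ι → Finset β} (b : ℝ) (hb : 1 < b)
    (F : V → Finset V) (idx : V → V → Fin H → ι)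
    (hidx : ∀ u v a u' v' a', idx u v a = idx u' v' a' → u = u' ∧ v = v' ∧ a = a')
    (g : β → γ) (hg : ∀ u, ∀ v ∈ F u, ∀ a, Set.InjOn g (T (idx u v a)))
    (n : ℝ) (hn0 : 0 < n) (hn : ∀ u, ∀ v ∈ F u, ∀ a, n ≤ #(T (idx u v a)))
    (rng : V → ℕ → Prop) (hr1 : ∀ u s, rng u s → 1 ≤ s) (jf : V → ℕ → ℕ) (t : ℕ → ℝ)
    (ht : ∀ u s, rng u s → 0 < t s ∧ t s ≤ 1) (W : ℕ → ℝ) (hW0 : ∀ s, 0 ≤ W s)
    (hW : ∀ u s, rng u s → (1 / t s) ^ (jf u s) * ((jf u s : ℝ) / n + t s) ^ (H * s) ≤ W s)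
    [∀ u, DecidablePred (rng u)]
    (τ : ℝ) (hτ0 : 0 ≤ τ)
    (hτ : ∀ u, ∑ S ∈ (F u).powerset.filter (fun S => rng u #S), W #S * b ^ (H * #S) ≤ τ) :
    Avoidable T b τ (fun ω => ∀ u, ∀ S ⊆ F u, rng u #S →
      jf u #S ≤ #((blk idx u S).image fun i => g (ω i))) := by
  classical
  refine ⟨{p : V × Finset V // p.2 ⊆ F p.1 ∧ rng p.1 #p.2}, inferInstance, inferInstance,
    fun e ω => #((blk idx e.1.1 e.1.2).image fun i => g (ω i)) < jf e.1.1 #e.1.2,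
    fun e => blk idx e.1.1 e.1.2, fun e => W #e.1.2, ?_, ?_, ?_, ?_, ?_, ?_⟩
  · intro e ω ω' h
    have h1 : (blk idx e.1.1 e.1.2).image (fun i => g (ω i))
        = (blk idx e.1.1 e.1.2).image fun i => g (ω' i) := by
      apply image_congr
      intro i hi
      have := h i hi
      simp only [this]
    simp only [h1]
  · intro e
    rw [← card_pos, card_blk hidx]
    have := hr1 _ _ e.2.2
    positivity
  · intro e; exact hW0 _
  · rintro ⟨⟨u, S⟩, hS, hr⟩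
    have h1 := distinct_bound (T := T) g (blk idx u S) (fun i hi => by
      obtain ⟨v, hv, a, rfl⟩ := mem_blk.1 hi
      exact hg u v (hS hv) a) n hn0 (fun i hi => by
      obtain ⟨v, hv, a, rfl⟩ := mem_blk.1 hi
      exact hn u v (hS hv) a) (jf u #S) (t #S) (ht u _ hr).1 (ht u _ hr).2
    rw [card_blk hidx] at h1
    exact h1.trans (mul_le_mul_of_nonneg_right (hW u _ hr) (cnt_nonneg _ _))
  · intro i
    by_cases hex : ∃ u0 v0 a0, idx u0 v0 a0 = i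
    · obtain ⟨u0, v0, a0, rfl⟩ := hex
      refine le_trans ?_ (hτ u0)
      rw [sum_congr rfl fun e _ => by rw [card_blk hidx]]
      refine sum_inj_le _ _
        (fun e : {p : V × Finset V // p.2 ⊆ F p.1 ∧ rng p.1 #p.2} => e.1.2) ?_ ?_
        (fun S => W #S * b ^ (H * #S)) ?_
      · rintro ⟨⟨u, S⟩, hS, hr⟩ he
        obtain ⟨v, hv, a, ha⟩ := mem_blk.1 (mem_filter.1 he).2
        obtain ⟨rfl, -, -⟩ := hidx _ _ _ _ _ _ ha
        exact mem_filter.2 ⟨mem_powerset.2 hS, hr⟩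
      · rintro ⟨⟨u, S⟩, hS, hr⟩ he ⟨⟨u', S'⟩, hS', hr'⟩ he' heq
        obtain ⟨v, hv, a, ha⟩ := mem_blk.1 (mem_filter.1 (mem_coe.1 he)).2
        obtain ⟨v', hv', a', ha'⟩ := mem_blk.1 (mem_filter.1 (mem_coe.1 he')).2
        obtain ⟨h1, -, -⟩ := hidx _ _ _ _ _ _ ha
        obtain ⟨h2, -, -⟩ := hidx _ _ _ _ _ _ ha'
        apply Subtype.ext
        exact Prod.ext (h1.trans h2.symm) heq
      · intro S _
        have := hW0 #S
        positivity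
    · rw [filter_false_of_mem, sum_empty]
      · exact hτ0
      · intro e _ he
        obtain ⟨v, hv, a, ha⟩ := mem_blk.1 he
        exact hex ⟨_, _, _, ha⟩
  · intro ω _ hA u S hS hr
    exact not_lt.1 (hA ⟨(u, S), hS, hr⟩)

theorem group_class {K : Type} [Fintype K] [DecidableEq K] {H : ℕ} (hH : 0 < H)
    {T : ι → Finset β} (b : ℝ) (hb : 1 < b)
    (F : V → Finset V) (G : V → Finset K) (idx : V → K → Fin H → ι)
    (hidx : ∀ u v a u' v' a', idx u v a = idx u' v' a' → u = u' ∧ v = v' ∧ a = a')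
    (pv : β → V) (q : ℕ → ℝ) (hq0 : ∀ r, 0 ≤ q r)
    (hq : ∀ u, ∀ R ⊆ F u, ∀ X ∈ G u, ∀ a,
      (#((T (idx u X a)).filter fun x => pv x ∈ R) : ℝ) ≤ q #R * #(T (idx u X a)))
    (ρ : ℕ) (τ : ℝ) (hτ0 : 0 ≤ τ)
    (hτ : ∀ u, ∑ p ∈ ((F u).powerset ×ˢ (G u).powerset).filter
      (fun p => #p.1 ≤ ρ ∧ #p.2 = #p.1 + 1), (q #p.1 * b) ^ (H * #p.2) ≤ τ) :
    Avoidable T b τ (fun ω => ∀ u, ∀ R ⊆ F u, ∀ I ⊆ G u, #R ≤ ρ → #I = #R + 1 →
      ∃ X ∈ I, ∃ a, pv (ω (idx u X a)) ∉ R) := by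
  classical
  refine ⟨{p : V × Finset V × Finset K // p.2.1 ⊆ F p.1 ∧ p.2.2 ⊆ G p.1 ∧ #p.2.1 ≤ ρ ∧
      #p.2.2 = #p.2.1 + 1}, inferInstance, inferInstance,
    fun e ω => ∀ i ∈ blk idx e.1.1 e.1.2.2, pv (ω i) ∈ e.1.2.1,
    fun e => blk idx e.1.1 e.1.2.2, fun e => q #e.1.2.1 ^ (H * #e.1.2.2), ?_, ?_, ?_, ?_, ?_, ?_⟩
  · intro e ω ω' h
    constructor
    · intro h1 i hi
      rw [← h i hi]; exact h1 i hi
    · intro h1 i hi
      rw [h i hi]; exact h1 i hi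
  · rintro ⟨⟨u, R, I⟩, h1, h2, h3, h4⟩
    rw [← card_pos, card_blk hidx]
    have h4 : #I = #R + 1 := h4
    have : 0 < #I := by omega
    positivity
  · intro e
    have := hq0 #e.1.2.1
    positivity
  · rintro ⟨⟨u, R, I⟩, hR, hI, h3, h4⟩
    have h1 := all_in_bound (T := T) (blk idx u I) (fun _ x => pv x ∈ R) (q #R) (fun i hi => by
      obtain ⟨X, hX, a, rfl⟩ := mem_blk.1 hi
      exact hq u R hR X (hI hX) a)
    rw [card_blk hidx] at h1
    exact h1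
  · intro i
    by_cases hex : ∃ u0 v0 a0, idx u0 v0 a0 = i
    · obtain ⟨u0, v0, a0, rfl⟩ := hex
      refine le_trans ?_ (hτ u0)
      rw [sum_congr rfl fun e _ => by rw [card_blk hidx, ← mul_pow]]
      refine sum_inj_le _ _
        (fun e : {p : V × Finset V × Finset K // p.2.1 ⊆ F p.1 ∧ p.2.2 ⊆ G p.1 ∧ #p.2.1 ≤ ρ ∧
          #p.2.2 = #p.2.1 + 1} => e.1.2) ?_ ?_
        (fun p : Finset V × Finset K => (q #p.1 * b) ^ (H * #p.2)) ?_
      · rintro ⟨⟨u, R, I⟩, h1, h2, h3, h4⟩ he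
        obtain ⟨v, hv, a, ha⟩ := mem_blk.1 (mem_filter.1 he).2
        obtain ⟨rfl, -, -⟩ := hidx _ _ _ _ _ _ ha
        exact mem_filter.2 ⟨mem_product.2 ⟨mem_powerset.2 h1, mem_powerset.2 h2⟩, h3, h4⟩
      · rintro ⟨⟨u, p⟩, hp⟩ he ⟨⟨u', p'⟩, hp'⟩ he' heq
        obtain ⟨v, hv, a, ha⟩ := mem_blk.1 (mem_filter.1 (mem_coe.1 he)).2
        obtain ⟨v', hv', a', ha'⟩ := mem_blk.1 (mem_filter.1 (mem_coe.1 he')).2
        obtain ⟨h1, -, -⟩ := hidx _ _ _ _ _ _ ha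
        obtain ⟨h2, -, -⟩ := hidx _ _ _ _ _ _ ha'
        apply Subtype.ext
        exact Prod.ext (h1.trans h2.symm) heq
      · intro p _
        have := hq0 #p.1
        positivity
    · rw [filter_false_of_mem, sum_empty]
      · exact hτ0
      · intro e _ he
        obtain ⟨v, hv, a, ha⟩ := mem_blk.1 he
        exact hex ⟨_, _, _, ha⟩
  · intro ω _ hA u R hR I hI h1 h2
    have h3 := hA ⟨(u, R, I), hR, hI, h1, h2⟩
    push Not at h3
    obtain ⟨i, hi, h4⟩ := h3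
    obtain ⟨X, hX, a, rfl⟩ := mem_blk.1 hi
    exact ⟨X, hX, a, h4⟩

end Pool.Agent.Helper21.LEL
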