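import Mathlib

/-!
Numerical estimates.
-/

set_option autoImplicit false
set_option linter.unusedVariables false
set_option linter.unusedSectionVars false
set_option linter.unusedSimpArgs false

namespace Pool.Agent.Helper21.LEL

open Finset

theorem exp_one_le_three : Real.exp 1 ≤ 3 := Real.exp_one_lt_d9.le.trans (by norm_num)

theorem choose_le (n N s : ℕ) (hs : 1 ≤ s) (hn : n ≤ N) :
    (n.choose s : ℝ) ≤ (3 * (N : ℝ) / s) ^ s := by
  have hs0 : (0 : ℝ) < s := by exact_mod_cast hs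
  have h1 : (n.choose s : ℝ) ≤ (n : ℝ) ^ s / (s.factorial : ℝ) := Nat.choose_le_pow_div s n
  have h2 : (n : ℝ) ^ s ≤ (N : ℝ) ^ s := pow_le_pow_left₀ (by positivity) (by exact_mod_cast hn) s
  have h3 : (s : ℝ) ^ s / (s.factorial : ℝ) ≤ 3 ^ s := by
    refine (Real.pow_div_factorial_le_exp s (by positivity) s).trans ?_
    calc Real.exp s = (Real.exp 1) ^ s := by rw [← Real.exp_nat_mul]; simp
      _ ≤ 3 ^ s := pow_le_pow_left₀ (Real.exp_pos _).le exp_one_le_three s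
  have hf : (0 : ℝ) < s.factorial := by exact_mod_cast s.factorial_pos
  rw [div_le_iff₀ hf] at h3
  rw [div_pow, mul_pow, le_div_iff₀ (by positivity)]
  calc (n.choose s : ℝ) * (s : ℝ) ^ s ≤ ((n : ℝ) ^ s / (s.factorial : ℝ)) * (3 ^ s * s.factorial) :=
        mul_le_mul h1 h3 (by positivity) (by positivity)
    _ = 3 ^ s * (n : ℝ) ^ s := by field_simp
    _ ≤ 3 ^ s * (N : ℝ) ^ s := mul_le_mul_of_nonneg_left h2 (by positivity)

theorem geom_le (e : ℝ) (he0 : 0 ≤ e) (he1 : e ≤ 1 / 2) (n : ℕ) :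
    ∑ s ∈ range (n + 1), (if 1 ≤ s then e ^ s else 0) ≤ 2 * e := by
  have h : ∀ n, ∑ s ∈ range (n + 1), (if 1 ≤ s then e ^ s else 0) ≤ 2 * e - 2 * e ^ (n + 1) := by
    intro n
    induction n with
    | zero => simp
    | succ n ih =>
      rw [sum_range_succ]
      have h1 : (if 1 ≤ n + 1 then e ^ (n + 1) else 0) = e ^ (n + 1) := by simp
      rw [h1]
      have h2 : e ^ (n + 1 + 1) = e ^ (n + 1) * e := pow_succ _ _
      have h3 : 0 ≤ e ^ (n + 1) := by positivity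
      have h4 : e ^ (n + 1) * e ≤ e ^ (n + 1) * (1 / 2) := mul_le_mul_of_nonneg_left he1 h3
      linarith
  have h3 : 0 ≤ e ^ (n + 1) := by positivity
  linarith [h n]

variable {V : Type*} [DecidableEq V] {K : Type*} [DecidableEq K]

theorem sum_powerset_le (F : Finset V) (P : ℕ → Prop) [DecidablePred P] (f : ℕ → ℝ) (e : ℝ)
    (he0 : 0 ≤ e) (he1 : e ≤ 1 / 2) (hP : ∀ s, P s → 1 ≤ s)
    (h : ∀ s, P s → (#F).choose s * f s ≤ e ^ s) :
    ∑ S ∈ F.powerset.filter (fun S => P #S), f #S ≤ 2 * e := by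
  rw [sum_filter]
  have h1 := Finset.sum_powerset_apply_card (fun s => if P s then f s else 0) (x := F)
  rw [h1]
  refine le_trans (sum_le_sum fun s _ => ?_) (geom_le e he0 he1 #F)
  rw [nsmul_eq_mul]
  by_cases hs : P s
  · simp only [hs, if_true, hP s hs]; exact h s hs
  · simp only [hs, if_false, mul_zero]
    split_ifs <;> positivity

/-- small sets -/
theorem class1_num (F : Finset V) (N n1 H : ℕ) (hH : 2 ≤ H) (b : ℝ) (hb0 : 0 ≤ b)
    (hb : b ^ H ≤ 3) (hF : #F ≤ N) (hn1 : 0 < n1) (hN : (N : ℝ) ≤ 1100 * n1) (e : ℝ)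
    (he : 39600 * (1 / 4 : ℝ) ^ (H - 2) ≤ e) (he1 : e ≤ 1 / 2) :
    ∑ S ∈ F.powerset.filter (fun S => 1 ≤ #S ∧ 8 * #S ≤ n1),
      ((n1 : ℝ) / #S) ^ #S * (2 * (#S : ℝ) / n1) ^ (H * #S) * b ^ (H * #S) ≤ 2 * e := by
  have he0 : 0 ≤ e := le_trans (by positivity) he
  refine sum_powerset_le F (fun s => 1 ≤ s ∧ 8 * s ≤ n1)
    (fun s => ((n1 : ℝ) / s) ^ s * (2 * (s : ℝ) / n1) ^ (H * s) * b ^ (H * s)) e he0 he1
    (fun s hs => hs.1) ?_
  rintro s ⟨hs1, hs8⟩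
  have hs0 : (0 : ℝ) < s := by exact_mod_cast hs1
  have hn : (0 : ℝ) < n1 := by exact_mod_cast hn1
  have h1 := choose_le #F N s hs1 hF
  have h2 : (0 : ℝ) ≤ ((n1 : ℝ) / s) ^ s * (2 * (s : ℝ) / n1) ^ (H * s) * b ^ (H * s) := by
    positivity
  refine (mul_le_mul_of_nonneg_right h1 h2).trans ?_
  rw [pow_mul, pow_mul, ← mul_pow, ← mul_pow, ← mul_pow]
  apply pow_le_pow_left₀ (by positivity)
  have h3 : (2 * (s : ℝ) / n1) ≤ 1 / 4 := by
    rw [div_le_div_iff₀ hn (by norm_num)]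
    have : (8 * s : ℝ) ≤ n1 := by exact_mod_cast hs8
    linarith
  have h4 : (2 * (s : ℝ) / n1) ^ H = (2 * (s : ℝ) / n1) ^ 2 * (2 * (s : ℝ) / n1) ^ (H - 2) := by
    rw [← pow_add]; congr 1; omega
  have h5 : (2 * (s : ℝ) / n1) ^ (H - 2) ≤ (1 / 4) ^ (H - 2) :=
    pow_le_pow_left₀ (by positivity) h3 _
  rw [h4]
  have h6 : 3 * (N : ℝ) / s * ((n1 : ℝ) / s) * ((2 * (s : ℝ) / n1) ^ 2) ≤ 13200 := by
    have : 3 * (N : ℝ) / s * ((n1 : ℝ) / s) * ((2 * (s : ℝ) / n1) ^ 2) = 12 * N / n1 := by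
      field_simp; ring
    rw [this, div_le_iff₀ hn]
    linarith
  calc 3 * (N : ℝ) / s * (((n1 : ℝ) / s) * ((2 * (s : ℝ) / n1) ^ 2 *
        (2 * (s : ℝ) / n1) ^ (H - 2)) * b ^ H)
      = (3 * (N : ℝ) / s * ((n1 : ℝ) / s) * ((2 * (s : ℝ) / n1) ^ 2)) *
        ((2 * (s : ℝ) / n1) ^ (H - 2) * b ^ H) := by ring
    _ ≤ 13200 * ((1 / 4) ^ (H - 2) * 3) := by
        apply mul_le_mul h6 _ (by positivity) (by norm_num)
        exact mul_le_mul h5 hb (by positivity) (by positivity)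
    _ = 39600 * (1 / 4 : ℝ) ^ (H - 2) := by ring
    _ ≤ e := he

/-- large sets -/
theorem class3_num (F : Finset V) (G : Finset K) (N s1 ρ H : ℕ) (hH : 2 ≤ H) (b : ℝ) (hb0 : 0 ≤ b)
    (hb : b ^ H ≤ 3) (hF : #F ≤ N) (hG : #G ≤ N) (hs1 : 0 < s1) (hN : (N : ℝ) ≤ 40 * s1)
    (hρ : 4 * ρ ≤ s1) (hρN : ρ ≤ N) (e : ℝ)
    (he : 43200 * (1 / 4 : ℝ) ^ (H - 2) ≤ e) (he1 : e ≤ 1 / 2) :
    ∑ p ∈ (F.powerset ×ˢ G.powerset).filter (fun p => #p.1 ≤ ρ ∧ #p.2 = #p.1 + 1),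
      ((#p.1 : ℝ) / s1 * b) ^ (H * #p.2) ≤ 2 * e := by
  have he0 : 0 ≤ e := le_trans (by positivity) he
  have hs : (0 : ℝ) < s1 := by exact_mod_cast hs1
  rw [sum_filter, sum_product]
  have h1 : ∀ R ∈ F.powerset, ∑ I ∈ G.powerset,
      (if #R ≤ ρ ∧ #I = #R + 1 then ((#R : ℝ) / s1 * b) ^ (H * #I) else 0)
      = if (1 ≤ #R ∧ #R ≤ ρ) then
        (#G).choose (#R + 1) * ((#R : ℝ) / s1 * b) ^ (H * (#R + 1)) else 0 := by
    intro R _
    by_cases hR : #R ≤ ρ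
    · simp only [hR, true_and, and_true]
      rw [← sum_filter, ← powersetCard_eq_filter]
      rw [sum_congr rfl (fun I hI => by rw [(mem_powersetCard.1 hI).2]), sum_const,
        card_powersetCard, nsmul_eq_mul]
      by_cases h0 : 1 ≤ #R
      · simp only [h0, if_true]
      · have h00 : #R = 0 := by omega
        simp only [h00]
        have : H * (0 + 1) ≠ 0 := by omega
        simp [this]
        omega
    · simp only [hR, false_and, and_false, if_false, sum_const_zero]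
  rw [sum_congr rfl h1, ← sum_filter]
  refine sum_powerset_le F (fun r => 1 ≤ r ∧ r ≤ ρ)
    (fun r => (#G).choose (r + 1) * ((r : ℝ) / s1 * b) ^ (H * (r + 1))) e he0 he1
    (fun r hr => hr.1) ?_
  rintro r ⟨hr1, hr2⟩
  have hr0 : (0 : ℝ) < r := by exact_mod_cast hr1
  have hrN : (r : ℝ) ≤ N := by exact_mod_cast hr2.trans hρN
  have hx1 : 1 ≤ 3 * (N : ℝ) / r := by
    rw [le_div_iff₀ hr0]; linarith
  have h2 := choose_le #F N r hr1 hF
  have h3 := choose_le #G N (r + 1) (by omega) hG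
  have h4 : (3 * (N : ℝ) / ((r + 1 : ℕ) : ℝ)) ^ (r + 1) ≤ (3 * (N : ℝ) / r) ^ (r + 1) := by
    apply pow_le_pow_left₀ (by positivity)
    apply div_le_div_of_nonneg_left (by positivity) hr0
    push_cast; linarith
  have h5 : (3 * (N : ℝ) / r) ^ r ≤ (3 * (N : ℝ) / r) ^ (r + 1) :=
    pow_le_pow_right₀ hx1 (by omega)
  have h6 : ((#F).choose r : ℝ) * ((#G).choose (r + 1) * ((r : ℝ) / s1 * b) ^ (H * (r + 1)))
      ≤ (3 * (N : ℝ) / r) ^ (r + 1) * ((3 * (N : ℝ) / r) ^ (r + 1) *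
        ((r : ℝ) / s1 * b) ^ (H * (r + 1))) := by
    apply mul_le_mul (h2.trans h5) _ (by positivity) (by positivity)
    exact mul_le_mul_of_nonneg_right (h3.trans h4) (by positivity)
  refine h6.trans ?_
  rw [pow_mul, ← mul_pow, ← mul_pow]
  have h7 : (r : ℝ) / s1 ≤ 1 / 4 := by
    rw [div_le_div_iff₀ hs (by norm_num)]
    have : (4 * r : ℝ) ≤ s1 := by
      have : 4 * r ≤ s1 := by omega
      exact_mod_cast this
    linarith
  have h8 : 3 * (N : ℝ) / r * (3 * (N : ℝ) / r * ((r : ℝ) / s1 * b) ^ H) ≤ e := by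
    have e1 : ((r : ℝ) / s1 * b) ^ H = ((r : ℝ) / s1) ^ 2 * ((r : ℝ) / s1) ^ (H - 2) * b ^ H := by
      rw [mul_pow, ← pow_add]; congr 2; omega
    have e2 : 3 * (N : ℝ) / r * (3 * (N : ℝ) / r) * ((r : ℝ) / s1) ^ 2 ≤ 14400 := by
      have : 3 * (N : ℝ) / r * (3 * (N : ℝ) / r) * ((r : ℝ) / s1) ^ 2 = 9 * (N / s1) ^ 2 := by
        field_simp; ring
      rw [this]
      have e3 : (N : ℝ) / s1 ≤ 40 := by rw [div_le_iff₀ hs]; exact hN
      have e4 : (0 : ℝ) ≤ (N : ℝ) / s1 := by positivity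
      nlinarith
    have e5 : ((r : ℝ) / s1) ^ (H - 2) ≤ (1 / 4) ^ (H - 2) :=
      pow_le_pow_left₀ (by positivity) h7 _
    rw [e1]
    calc 3 * (N : ℝ) / r * (3 * (N : ℝ) / r * (((r : ℝ) / s1) ^ 2 * ((r : ℝ) / s1) ^ (H - 2) *
          b ^ H))
        = (3 * (N : ℝ) / r * (3 * (N : ℝ) / r) * ((r : ℝ) / s1) ^ 2) *
          (((r : ℝ) / s1) ^ (H - 2) * b ^ H) := by ring
      _ ≤ 14400 * ((1 / 4) ^ (H - 2) * 3) := by
          apply mul_le_mul e2 _ (by positivity) (by norm_num)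
          exact mul_le_mul e5 hb (by positivity) (by positivity)
      _ = 43200 * (1 / 4 : ℝ) ^ (H - 2) := by ring
      _ ≤ e := he
  calc (3 * (N : ℝ) / r * (3 * (N : ℝ) / r * ((r : ℝ) / s1 * b) ^ H)) ^ (r + 1)
      ≤ e ^ (r + 1) := pow_le_pow_left₀ (by positivity) h8 _
    _ ≤ e ^ r := pow_le_pow_of_le_one he0 (by linarith) (by omega)

/-- medium sets -/
theorem class2_num (F : Finset V) (N n1 H : ℕ) (P : ℕ → Prop) [DecidablePred P]
    (hP : ∀ s, P s → n1 < 8 * s ∧ s ≤ N) (b : ℝ) (hb0 : 0 ≤ b)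
    (hb : b ^ H ≤ 3) (hF : #F ≤ N) (hN : (N : ℝ) ≤ 1100 * n1)
    (hH : 12 * 9011200 ≤ H) :
    ∑ S ∈ F.powerset.filter (fun S => P #S),
      (2048 : ℝ) ^ N * (1 - 1 / 1024) ^ (H * #S) * b ^ (H * #S) ≤ (1 / 12) ^ N := by
  have hbd : ∀ S ∈ F.powerset.filter (fun S => P #S),
      (2048 : ℝ) ^ N * (1 - 1 / 1024) ^ (H * #S) * b ^ (H * #S)
        ≤ 2048 ^ N * Real.exp (-12) ^ N * 3 ^ N := by
    intro S hS
    obtain ⟨h1, h2⟩ := hP _ (mem_filter.1 hS).2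
    have h3 : ((1 : ℝ) - 1 / 1024) ^ (H * #S) ≤ Real.exp (-12) ^ N := by
      have e1 : (1 : ℝ) - 1 / 1024 ≤ Real.exp (-(1 / 1024)) := Real.one_sub_le_exp_neg _
      calc ((1 : ℝ) - 1 / 1024) ^ (H * #S) ≤ (Real.exp (-(1 / 1024))) ^ (H * #S) :=
            pow_le_pow_left₀ (by norm_num) e1 _
        _ = Real.exp (((H * #S : ℕ) : ℝ) * (-(1 / 1024))) := by rw [← Real.exp_nat_mul]
        _ ≤ Real.exp ((N : ℝ) * (-12)) := by
          apply Real.exp_le_exp.2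
          push_cast
          have e2 : (12 * 9011200 : ℝ) ≤ H := by exact_mod_cast hH
          have e3 : (n1 : ℝ) ≤ 8 * #S := by exact_mod_cast h1.le
          have e4 : (N : ℝ) ≤ 8800 * #S := by linarith
          have e5 : (0 : ℝ) ≤ #S := by positivity
          have e6 : (12 * 9011200 : ℝ) * #S ≤ H * #S := mul_le_mul_of_nonneg_right e2 e5
          linarith
        _ = Real.exp (-12) ^ N := by rw [← Real.exp_nat_mul]
    have h4 : b ^ (H * #S) ≤ 3 ^ N := by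
      rw [pow_mul]
      calc (b ^ H) ^ #S ≤ 3 ^ #S := pow_le_pow_left₀ (by positivity) hb _
        _ ≤ 3 ^ N := pow_le_pow_right₀ (by norm_num) h2
    apply mul_le_mul _ h4 (by positivity) (by positivity)
    exact mul_le_mul_of_nonneg_left h3 (by positivity)
  refine (sum_le_card_nsmul _ _ _ hbd).trans ?_
  rw [nsmul_eq_mul]
  have h5 : (#(F.powerset.filter (fun S => P #S)) : ℝ) ≤ 2 ^ N := by
    have : #(F.powerset.filter (fun S => P #S)) ≤ 2 ^ N := by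
      refine (card_filter_le _ _).trans ?_
      rw [card_powerset]
      exact Nat.pow_le_pow_right (by norm_num) hF
    exact_mod_cast this
  have h6 : Real.exp (-12) ≤ 1 / 147456 := by
    rw [Real.exp_neg, ← one_div]
    apply one_div_le_one_div_of_le (by norm_num)
    have := Real.exp_one_gt_d9
    calc (147456 : ℝ) ≤ 2.7 ^ 12 := by norm_num
      _ ≤ (Real.exp 1) ^ 12 := pow_le_pow_left₀ (by norm_num) (by linarith) 12
      _ = Real.exp 12 := by rw [← Real.exp_nat_mul]; norm_num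
  calc (#(F.powerset.filter (fun S => P #S)) : ℝ) * (2048 ^ N * Real.exp (-12) ^ N * 3 ^ N)
      ≤ 2 ^ N * (2048 ^ N * (1 / 147456) ^ N * 3 ^ N) := by
        apply mul_le_mul h5 _ (by positivity) (by positivity)
        apply mul_le_mul_of_nonneg_right _ (by positivity)
        apply mul_le_mul_of_nonneg_left _ (by positivity)
        exact pow_le_pow_left₀ (Real.exp_pos _).le h6 _
    _ = (2 * (2048 * (1 / 147456) * 3)) ^ N := by rw [mul_pow, mul_pow, mul_pow]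
    _ = (1 / 12) ^ N := by norm_num

end Pool.Agent.Helper21.LEL
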