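import Mathlib
import Pool.Agent.Helper21.LEC.Det
import Pool.Agent.Helper21.LEL.Classes
import Pool.Agent.Helper21.LEL.Numer

/-!
Main stage: choice of the allowed colours.
-/

set_option autoImplicit false
set_option linter.unusedSectionVars false
set_option linter.unusedVariables false

namespace Pool.Agent.Helper21.LEL

open Finset Pool.Agent.Helper21.LEC

variable {V : Type} [Fintype V] [DecidableEq V] {C : Type} [Fintype C] [DecidableEq C] {H : ℕ}

/-- coordinates: two kinds of choices for every pair, one kind for every group -/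
abbrev Idx (V C : Type) (H : ℕ) := (V × V × Fin H) ⊕ ((V × V × Fin H) ⊕ (V × Finset C × Fin H))

/-- owner -/
def ownI : Idx V C H → V
  | Sum.inl p => p.1
  | Sum.inr (Sum.inl p) => p.1
  | Sum.inr (Sum.inr p) => p.1

/-- slots -/
def slI (M L' : V → V → Finset C) (A : V → Finset C → Finset V) (rep : V → Finset C → V → C) :
    Idx V C H → Finset (V × C)
  | Sum.inl p => (M p.1 p.2.1).image fun c => (p.2.1, c)
  | Sum.inr (Sum.inl p) => (L' p.1 p.2.1).image fun c => (p.2.1, c)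
  | Sum.inr (Sum.inr p) => (A p.1 p.2.1).image fun v => (v, rep p.1 p.2.1 v)

/-- data of the main stage -/
structure Data (B : V → Finset V) (N n1 s1 k : ℕ) (n2 : ℝ) where
  L : V → V → Finset C
  Γ : V → Finset C
  M : V → V → Finset C
  L' : V → V → Finset C
  G : V → Finset (Finset C)
  A : V → Finset C → Finset V
  rep : V → Finset C → V → C
  hM0 : ∀ u v, v ∉ fw B u → M u v = ∅
  hM1 : ∀ u, ∀ v ∈ fw B u, n1 ≤ #(M u v)
  hMN : ∀ u v, #(M u v) ≤ N
  hMΓ : ∀ u v, ∀ c ∈ M u v, c ∈ Γ v ∧ c ∉ Γ u ∧ c ∈ L u v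
  hL0 : ∀ u v, v ∉ fw B u → L' u v = ∅
  hL1 : ∀ u, ∀ v ∈ fw B u, n2 ≤ #(L' u v)
  hLN : ∀ u v, #(L' u v) ≤ N
  hLΓ : ∀ u v, ∀ c ∈ L' u v, c ∈ Γ v ∧ c ∈ L u v
  hA0 : ∀ u X, X ∉ G u → A u X = ∅
  hA1 : ∀ u, ∀ X ∈ G u, s1 ≤ #(A u X)
  hAN : ∀ u X, #(A u X) ≤ N
  hAF : ∀ u X, A u X ⊆ fw B u
  hrep : ∀ u X, ∀ v ∈ A u X, rep u X v ∈ X ∧ rep u X v ∈ Γ v ∧ rep u X v ∈ L u v
  hGd : ∀ u, ∀ X ∈ G u, ∀ Y ∈ G u, X ≠ Y → Disjoint X Y
  hGc : ∀ u, #(G u) ≤ N
  hB : ∀ v, #(B v) ≤ k
  hdeg : ∀ u, #(fw B u) + #(B u) ≤ N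

variable {B : V → Finset V} {N n1 s1 k : ℕ} {n2 : ℝ}

theorem inj_pair (v : V) : Function.Injective fun c : C => (v, c) := fun _ _ h => (Prod.ext_iff.1 h).2

theorem slot_fw (d : Data (C := C) B N n1 s1 k n2) (z : Idx V C H) (s : V × C)
    (hs : s ∈ slI d.M d.L' d.A d.rep z) :
    s.1 ∈ fw B (ownI z) ∧ s.2 ∈ d.Γ s.1 ∧ s.2 ∈ d.L (ownI z) s.1 := by
  rcases z with ⟨u, v, a⟩ | ⟨u, v, a⟩ | ⟨u, X, a⟩
  · simp only [slI, mem_image] at hs
    obtain ⟨c, hc, rfl⟩ := hs
    refine ⟨?_, (d.hMΓ u v c hc).1, (d.hMΓ u v c hc).2.2⟩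
    by_contra h
    rw [d.hM0 u v h] at hc; simp at hc
  · simp only [slI, mem_image] at hs
    obtain ⟨c, hc, rfl⟩ := hs
    refine ⟨?_, (d.hLΓ u v c hc).1, (d.hLΓ u v c hc).2⟩
    by_contra h
    rw [d.hL0 u v h] at hc; simp at hc
  · simp only [slI, mem_image] at hs
    obtain ⟨v, hv, rfl⟩ := hs
    exact ⟨d.hAF u X hv, (d.hrep u X v hv).2.1, (d.hrep u X v hv).2.2⟩

theorem slot_card (d : Data (C := C) B N n1 s1 k n2) (hn2 : (n1 : ℝ) ≤ n2) (hs1 : n1 ≤ s1)
    (z : Idx V C H) (s : V × C) (hs : s ∈ slI d.M d.L' d.A d.rep z) :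
    (n1 : ℝ) ≤ #(slI d.M d.L' d.A d.rep z) := by
  have hfw := (slot_fw d z s hs).1
  rcases z with ⟨u, v, a⟩ | ⟨u, v, a⟩ | ⟨u, X, a⟩
  · simp only [slI] at hs ⊢
    rw [card_image_of_injective _ (inj_pair v)]
    obtain ⟨c, hc, rfl⟩ := mem_image.1 hs
    exact_mod_cast d.hM1 u v hfw
  · simp only [slI] at hs ⊢
    rw [card_image_of_injective _ (inj_pair v)]
    obtain ⟨c, hc, rfl⟩ := mem_image.1 hs
    exact hn2.trans (d.hL1 u v hfw)
  · simp only [slI] at hs ⊢
    rw [card_image_of_injective _ (fun _ _ h => (Prod.ext_iff.1 h).1)]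
    obtain ⟨v, hv, rfl⟩ := mem_image.1 hs
    have hX : X ∈ d.G u := by
      by_contra h
      rw [d.hA0 u X h] at hv; simp at hv
    exact_mod_cast hs1.trans (d.hA1 u X hX)

theorem slot_le (d : Data (C := C) B N n1 s1 k n2) (z : Idx V C H) :
    #(slI d.M d.L' d.A d.rep z) ≤ N := by
  rcases z with ⟨u, v, a⟩ | ⟨u, v, a⟩ | ⟨u, X, a⟩
  · exact card_image_le.trans (d.hMN u v)
  · exact card_image_le.trans (d.hLN u v)
  · exact card_image_le.trans (d.hAN u X)

theorem slot_mult (d : Data (C := C) B N n1 s1 k n2) (s : V × C) :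
    #(univ.filter fun z : Idx V C H => s ∈ slI d.M d.L' d.A d.rep z) ≤ 3 * k * H := by
  obtain ⟨v, c⟩ := s
  have h1 : #(univ.filter fun z : Idx V C H => (v, c) ∈ slI d.M d.L' d.A d.rep z)
      ≤ #((univ : Finset (Fin 3)) ×ˢ B v ×ˢ (univ : Finset (Fin H))) := by
    set f : Idx V C H → Fin 3 × V × Fin H := fun z => match z with
      | Sum.inl p => (0, p.1, p.2.2)
      | Sum.inr (Sum.inl p) => (1, p.1, p.2.2)
      | Sum.inr (Sum.inr p) => (2, p.1, p.2.2) with hf
    refine card_le_card_of_injOn f ?_ ?_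
    · intro z hz
      rw [mem_coe, mem_filter] at hz
      have h2 := (slot_fw d z _ hz.2).1
      rw [mem_fw] at h2
      rw [mem_coe, mem_product, mem_product]
      rcases z with ⟨u, v', a⟩ | ⟨u, v', a⟩ | ⟨u, X, a⟩
      · exact ⟨mem_univ _, h2, mem_univ _⟩
      · exact ⟨mem_univ _, h2, mem_univ _⟩
      · exact ⟨mem_univ _, h2, mem_univ _⟩
    · intro z hz z' hz' heq
      rw [mem_coe, mem_filter] at hz hz'
      have hz := hz.2
      have hz' := hz'.2
      rcases z with ⟨u, v', a⟩ | ⟨u, v', a⟩ | ⟨u, X, a⟩ <;>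
        rcases z' with ⟨w, v'', a'⟩ | ⟨w, v'', a'⟩ | ⟨w, X', a'⟩ <;>
        simp only [hf, Prod.mk.injEq, Fin.isValue, zero_ne_one, one_ne_zero, false_and,
          true_and, reduceCtorEq] at heq
      · obtain ⟨rfl, rfl⟩ := heq
        simp only [slI, mem_image, Prod.mk.injEq] at hz hz'
        obtain ⟨_, _, h3, _⟩ := hz
        obtain ⟨_, _, h4, _⟩ := hz'
        rw [h3, h4]
      · exact absurd heq.1 (by decide)
      · obtain ⟨rfl, rfl⟩ := heq
        simp only [slI, mem_image, Prod.mk.injEq] at hz hz'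
        obtain ⟨_, _, h3, _⟩ := hz
        obtain ⟨_, _, h4, _⟩ := hz'
        rw [h3, h4]
      · exact absurd heq.1 (by decide)
      · exact absurd heq.1 (by decide)
      · exact absurd heq.1 (by decide)
      · obtain ⟨rfl, rfl⟩ := heq
        simp only [slI, mem_image, Prod.mk.injEq] at hz hz'
        obtain ⟨x, hx, rfl, rfl⟩ := hz
        obtain ⟨y, hy, rfl, h4⟩ := hz'
        have hXX : X = X' := by
          by_contra hne
          have hX : X ∈ d.G u := by
            by_contra h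
            rw [d.hA0 u X h] at hx; simp at hx
          have hX' : X' ∈ d.G u := by
            by_contra h
            rw [d.hA0 u X' h] at hy; simp at hy
          have h5 := (d.hrep u X y hx).1
          have h6 := (d.hrep u X' y hy).1
          rw [h4] at h6
          exact Finset.disjoint_left.1 (d.hGd u X hX X' hX' hne) h5 h6
        rw [hXX]
  refine h1.trans ?_
  rw [card_product, card_product, card_univ, card_univ, Fintype.card_fin, Fintype.card_fin]
  calc 3 * (#(B v) * H) ≤ 3 * (k * H) :=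
        Nat.mul_le_mul_left _ (Nat.mul_le_mul_right _ (d.hB v))
    _ = 3 * k * H := by ring

/-- sample sets -/
def TI (M L' : V → V → Finset C) (A : V → Finset C → Finset V) (rep : V → Finset C → V → C)
    (z : Idx V C H) : Finset (V × C) :=
  if (slI M L' A rep z).Nonempty then slI M L' A rep z else univ

theorem TI_eq (d : Data (C := C) B N n1 s1 k n2) {z : Idx V C H} {s : V × C}
    (hs : s ∈ slI d.M d.L' d.A d.rep z) :
    TI d.M d.L' d.A d.rep z = slI d.M d.L' d.A d.rep z := by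
  unfold TI; rw [if_pos ⟨s, hs⟩]

theorem one_add_pow_le (H : ℕ) (hH : 0 < H) : (1 + 1 / (H : ℝ)) ^ H ≤ 3 := by
  have h1 : (1 + 1 / (H : ℝ)) ≤ Real.exp (1 / (H : ℝ)) := by
    have := Real.add_one_le_exp (1 / (H : ℝ)); linarith
  calc (1 + 1 / (H : ℝ)) ^ H ≤ (Real.exp (1 / (H : ℝ))) ^ H :=
        pow_le_pow_left₀ (by positivity) h1 H
    _ = Real.exp 1 := by
        rw [← Real.exp_nat_mul]; congr 1
        have : (H : ℝ) ≠ 0 := by positivity
        field_simp
    _ ≤ 3 := exp_one_le_three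

theorem stage [Nonempty V] [Nonempty C] (d : Data (C := C) B N n1 s1 k n2)
    (hH : 12 * 9011200 ≤ H) (hn1 : 0 < n1) (hN1 : (N : ℝ) ≤ 1100 * n1) (hn1s1 : n1 ≤ s1)
    (hN40 : (N : ℝ) ≤ 40 * s1) (hn2 : (n1 : ℝ) ≤ n2) (ρ τ2 : ℕ) (hρτ : ρ + τ2 = N)
    (hρ : 4 * ρ ≤ s1) (hτ2 : (τ2 : ℝ) / n2 + 1 / 2048 ≤ 1 - 1 / 1024)
    (hlarge : ∀ u, τ2 < #(fw B u) + #(B u) → #(d.G u) = N)
    (he : 43200 * (1 / 4 : ℝ) ^ (H - 2) ≤ 1 / (16 * ((H : ℝ) + 1)))
    (hN12 : (1 / 12 : ℝ) ^ N ≤ 1 / (4 * ((H : ℝ) + 1)))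
    (hconf : 2 * (N : ℝ) * ((3 * k * H : ℕ) : ℝ) * (1 + 1 / (H : ℝ)) ^ 2 / (n1 : ℝ) ^ 2
      ≤ 1 / (4 * ((H : ℝ) + 1))) :
    ∃ Al : V → V → Finset C, (∀ u v c, c ∈ Al u v → v ∈ fw B u ∧ c ∈ d.Γ v ∧ c ∈ d.L u v) ∧
      (∀ v, ∀ u ∈ B v, ∀ u' ∈ B v, u ≠ u' → Disjoint (Al u v) (Al u' v)) ∧
      ∀ u, ∀ S ⊆ fw B u, #S ≤ #(S.biUnion fun v => Al u v \ d.Γ u) ∨
        #S + #(B u) ≤ #(S.biUnion fun v => Al u v) := by
  classical
  have hH0 : 0 < H := by omega
  have hHr : (0 : ℝ) < H := by exact_mod_cast hH0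
  set b : ℝ := 1 + 1 / (H : ℝ) with hb
  have hb1 : 1 < b := by
    have : 0 < 1 / (H : ℝ) := by positivity
    linarith
  have hb0 : 0 ≤ b := by linarith
  have hbH : b ^ H ≤ 3 := one_add_pow_le H hH0
  set e : ℝ := 1 / (16 * ((H : ℝ) + 1)) with he'
  have he1 : e ≤ 1 / 2 := by
    rw [he']
    apply one_div_le_one_div_of_le (by norm_num)
    linarith
  have he0 : 0 ≤ e := by positivity
  have hn1r : (0 : ℝ) < n1 := by exact_mod_cast hn1
  have hn2r : 0 < n2 := lt_of_lt_of_le hn1r hn2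
  set sl : Idx V C H → Finset (V × C) := slI d.M d.L' d.A d.rep with hsl
  set T : Idx V C H → Finset (V × C) := TI d.M d.L' d.A d.rep with hT
  have hTne : ∀ i, (T i).Nonempty := by
    intro i
    rw [hT]; unfold TI
    split_ifs with h
    · exact h
    · exact univ_nonempty
  -- conflicts
  have c0 := conflict_avoidable (own := (ownI : Idx V C H → V)) sl T N (3 * k * H) (n1 : ℝ) hn1r
    (fun i s hs => by rw [hT, TI_eq d hs]; exact slot_card d hn2 hn1s1 i s hs)
    (fun i => slot_le d i) (fun s => slot_mult d s) b hb1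
  -- small sets
  have hT1 : ∀ u, ∀ v ∈ fw B u, ∀ a : Fin H,
      T (Sum.inl (u, v, a)) = (d.M u v).image fun c => (v, c) := by
    intro u v hv a
    have h1 : (d.M u v).Nonempty := by
      rw [← card_pos]; exact lt_of_lt_of_le hn1 (d.hM1 u v hv)
    obtain ⟨c, hc⟩ := h1
    rw [hT, TI_eq d (s := (v, c)) (by simp only [slI]; exact mem_image_of_mem _ hc)]
    rfl
  have hT2 : ∀ u, ∀ v ∈ fw B u, ∀ a : Fin H,
      T (Sum.inr (Sum.inl (u, v, a))) = (d.L' u v).image fun c => (v, c) := by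
    intro u v hv a
    have h1 : (d.L' u v).Nonempty := by
      rw [← card_pos]
      have : (0 : ℝ) < #(d.L' u v) := lt_of_lt_of_le hn2r (d.hL1 u v hv)
      exact_mod_cast this
    obtain ⟨c, hc⟩ := h1
    rw [hT, TI_eq d (s := (v, c)) (by simp only [slI]; exact mem_image_of_mem _ hc)]
    rfl
  have hT3 : ∀ u, ∀ X ∈ d.G u, ∀ a : Fin H,
      T (Sum.inr (Sum.inr (u, X, a))) = (d.A u X).image fun v => (v, d.rep u X v) := by
    intro u X hX a
    have h1 : (d.A u X).Nonempty := by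
      rw [← card_pos]; exact lt_of_lt_of_le hn1 (hn1s1.trans (d.hA1 u X hX))
    obtain ⟨v, hv⟩ := h1
    rw [hT, TI_eq d (s := (v, d.rep u X v)) (by
      simp only [slI]; exact mem_image_of_mem (fun v => (v, d.rep u X v)) hv)]
    rfl
  have c1 := distinct_class (T := T) hH0 b hb1 (fw B) (fun u v a => Sum.inl (u, v, a))
    (fun u v a u' v' a' h => by
      simp only [Sum.inl.injEq, Prod.mk.injEq] at h; exact h)
    (Prod.snd : V × C → C) (fun u v hv a => by
      rw [hT1 u v hv a]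
      intro x hx y hy hxy
      rw [coe_image] at hx hy
      obtain ⟨c, _, rfl⟩ := hx
      obtain ⟨c', _, rfl⟩ := hy
      simp only at hxy; rw [hxy]) (n1 : ℝ) hn1r (fun u v hv a => by
      rw [hT1 u v hv a, card_image_of_injective _ (inj_pair v)]
      exact_mod_cast d.hM1 u v hv)
    (fun _ s => 1 ≤ s ∧ 8 * s ≤ n1) (fun _ s h => h.1) (fun _ s => s)
    (fun s => (s : ℝ) / n1) (fun _ s h => by
      have h0 : (0 : ℝ) < s := by exact_mod_cast h.1
      refine ⟨by positivity, ?_⟩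
      rw [div_le_one hn1r]
      have : s ≤ n1 := by omega
      exact_mod_cast this)
    (fun s => ((n1 : ℝ) / s) ^ s * (2 * (s : ℝ) / n1) ^ (H * s)) (fun s => by positivity)
    (fun _ s h => by
      apply le_of_eq
      have e1 : 1 / ((s : ℝ) / n1) = n1 / s := by rw [one_div_div]
      have e2 : (s : ℝ) / n1 + (s : ℝ) / n1 = 2 * (s : ℝ) / n1 := by ring
      rw [e1, e2]) (2 * e) (by positivity) (fun u =>
      class1_num (fw B u) N n1 H (by omega) b hb0 hbH (by have := d.hdeg u; omega) hn1 hN1 e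
        (le_trans (by gcongr; norm_num) he) he1)
  have c2 := distinct_class (T := T) hH0 b hb1 (fw B) (fun u v a => Sum.inr (Sum.inl (u, v, a)))
    (fun u v a u' v' a' h => by
      simp only [Sum.inr.injEq, Sum.inl.injEq, Prod.mk.injEq] at h; exact h)
    (Prod.snd : V × C → C) (fun u v hv a => by
      rw [hT2 u v hv a]
      intro x hx y hy hxy
      rw [coe_image] at hx hy
      obtain ⟨c, _, rfl⟩ := hx
      obtain ⟨c', _, rfl⟩ := hy
      simp only at hxy; rw [hxy]) n2 hn2r (fun u v hv a => by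
      rw [hT2 u v hv a, card_image_of_injective _ (inj_pair v)]
      exact d.hL1 u v hv)
    (fun u s => n1 < 8 * s ∧ s + #(B u) ≤ τ2) (fun _ s h => by omega) (fun u s => s + #(B u))
    (fun s => (1 : ℝ) / 2048) (fun _ s h => by norm_num)
    (fun s => (2048 : ℝ) ^ N * (1 - 1 / 1024) ^ (H * s)) (fun s => by
      have : (0 : ℝ) ≤ 1 - 1 / 1024 := by norm_num
      positivity)
    (fun u s h => by
      have hj : s + #(B u) ≤ τ2 := h.2
      have e1 : (1 : ℝ) / (1 / 2048) = 2048 := by norm_num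
      rw [e1]
      apply mul_le_mul _ _ (by positivity) (by positivity)
      · exact pow_le_pow_right₀ (by norm_num) (by omega)
      · apply pow_le_pow_left₀ (by positivity)
        refine le_trans ?_ hτ2
        have : (((s + #(B u) : ℕ)) : ℝ) ≤ τ2 := by exact_mod_cast hj
        have : (((s + #(B u) : ℕ)) : ℝ) / n2 ≤ τ2 / n2 := by gcongr
        linarith) ((1 / 12 : ℝ) ^ N) (by positivity) (fun u =>
      class2_num (fw B u) N n1 H (fun s => n1 < 8 * s ∧ s + #(B u) ≤ τ2)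
        (fun s h => ⟨h.1, by omega⟩) b hb0 hbH (by have := d.hdeg u; omega) hN1 hH)
  have c3 := group_class (K := Finset C) (T := T) hH0 b hb1 (fw B) d.G
    (fun u X a => Sum.inr (Sum.inr (u, X, a)))
    (fun u v a u' v' a' h => by
      simp only [Sum.inr.injEq, Prod.mk.injEq] at h; exact h)
    (Prod.fst : V × C → V) (fun r => (r : ℝ) / s1) (fun r => by positivity)
    (fun u R hR X hX a => by
      rw [hT3 u X hX a, card_image_of_injective _ (fun _ _ h => (Prod.ext_iff.1 h).1)]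
      have h1 : #(((d.A u X).image fun v => (v, d.rep u X v)).filter fun x => x.1 ∈ R) ≤ #R := by
        apply card_le_card_of_injOn Prod.fst
        · intro x hx
          exact (mem_filter.1 (mem_coe.1 hx)).2
        · intro x hx y hy hxy
          have hx := (mem_filter.1 (mem_coe.1 hx)).1
          have hy := (mem_filter.1 (mem_coe.1 hy)).1
          obtain ⟨v, _, rfl⟩ := mem_image.1 hx
          obtain ⟨v', _, rfl⟩ := mem_image.1 hy
          simp only at hxy; rw [hxy]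
      have h2 : (s1 : ℝ) ≤ #(d.A u X) := by exact_mod_cast d.hA1 u X hX
      have h3 : (0 : ℝ) < s1 := by
        have : 0 < s1 := by omega
        exact_mod_cast this
      calc (#(((d.A u X).image fun v => (v, d.rep u X v)).filter fun x => x.1 ∈ R) : ℝ)
          ≤ #R := by exact_mod_cast h1
        _ = (#R : ℝ) / s1 * s1 := by field_simp
        _ ≤ (#R : ℝ) / s1 * #(d.A u X) := mul_le_mul_of_nonneg_left h2 (by positivity))
    ρ (2 * e) (by positivity) (fun u =>
      class3_num (fw B u) (d.G u) N s1 ρ H (by omega) b hb0 hbH (by have := d.hdeg u; omega)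
        (d.hGc u) (by omega) hN40 hρ (by omega) e he he1)
  obtain ⟨ω, hω, hP0, hP1, hP2, hP3⟩ := (c0.and (c1.and (c2.and c3))).exists hTne hb1 (by
    have h1 : 1 - 1 / b = 1 / ((H : ℝ) + 1) := by
      rw [hb]; field_simp; ring
    have h2 : 2 * e = 1 / (8 * ((H : ℝ) + 1)) := by rw [he']; field_simp; ring
    have h3 : (1 : ℝ) / (8 * ((H : ℝ) + 1)) = 1 / 8 * (1 / ((H : ℝ) + 1)) := by field_simp
    have h4 : (1 : ℝ) / (4 * ((H : ℝ) + 1)) = 1 / 4 * (1 / ((H : ℝ) + 1)) := by field_simp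
    have h5 : (0 : ℝ) ≤ 1 / ((H : ℝ) + 1) := by positivity
    rw [h1, h2]
    rw [h4] at hconf hN12
    rw [h3]
    linarith)
  rw [Fintype.mem_piFinset] at hω
  set Al : V → V → Finset C := fun u v => univ.filter fun c =>
    ∃ z : Idx V C H, ownI z = u ∧ (v, c) ∈ sl z ∧ ω z = (v, c) with hAl
  have hAlm : ∀ u v c, c ∈ Al u v ↔ ∃ z : Idx V C H, ownI z = u ∧ (v, c) ∈ sl z ∧ ω z = (v, c) := by
    intro u v c; simp [hAl]
  refine ⟨Al, ?_, ?_, ?_⟩
  · intro u v c hc
    obtain ⟨z, rfl, hz, -⟩ := (hAlm u v c).1 hc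
    exact slot_fw d z _ hz
  · intro v u hu u' hu' hne
    rw [Finset.disjoint_left]
    intro c hc hc'
    obtain ⟨z, rfl, hz, h1⟩ := (hAlm _ _ _).1 hc
    obtain ⟨z', rfl, hz', h1'⟩ := (hAlm _ _ _).1 hc'
    exact hP0 z z' (v, c) hne hz hz' h1 h1'
  · intro u S hS
    by_cases hS0 : #S = 0
    · left; omega
    by_cases hS1 : 8 * #S ≤ n1
    · left
      refine (hP1 u S hS ⟨by omega, hS1⟩).trans (card_le_card ?_)
      intro c hc
      obtain ⟨z, hz, rfl⟩ := mem_image.1 hc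
      obtain ⟨v, hv, a, rfl⟩ := mem_blk.1 hz
      have h1 := hω (Sum.inl (u, v, a))
      have h1' := h1
      rw [hT1 u v (hS hv) a] at h1
      obtain ⟨c, hc, heq⟩ := mem_image.1 h1
      rw [mem_biUnion]
      refine ⟨v, hv, ?_⟩
      rw [← heq, mem_sdiff]
      refine ⟨(hAlm _ _ _).2 ⟨Sum.inl (u, v, a), rfl, ?_, heq.symm⟩, (d.hMΓ u v c hc).2.1⟩
      exact mem_image_of_mem _ hc
    right
    by_cases hS2 : #S + #(B u) ≤ τ2
    · refine (hP2 u S hS ⟨by omega, hS2⟩).trans (card_le_card ?_)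
      intro c hc
      obtain ⟨z, hz, rfl⟩ := mem_image.1 hc
      obtain ⟨v, hv, a, rfl⟩ := mem_blk.1 hz
      have h1 := hω (Sum.inr (Sum.inl (u, v, a)))
      rw [hT2 u v (hS hv) a] at h1
      obtain ⟨c, hc, heq⟩ := mem_image.1 h1
      rw [mem_biUnion]
      refine ⟨v, hv, ?_⟩
      rw [← heq]
      refine (hAlm _ _ _).2 ⟨Sum.inr (Sum.inl (u, v, a)), rfl, ?_, heq.symm⟩
      exact mem_image_of_mem _ hc
    · rw [not_le] at hS2
      have hSF : #S ≤ #(fw B u) := card_le_card hS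
      have hdeg := d.hdeg u
      have hGN := hlarge u (by omega)
      set R := fw B u \ S with hR
      have hRc : #R = #(fw B u) - #S := card_sdiff_of_subset hS
      set I0 := (d.G u).filter fun X => ∀ a : Fin H,
        (ω (Sum.inr (Sum.inr (u, X, a)))).1 ∈ R with hI0
      have hI0c : #I0 ≤ #R := by
        by_contra hcon
        rw [not_le] at hcon
        obtain ⟨I, hI, hIc⟩ := exists_subset_card_eq (s := I0) (n := #R + 1) (by omega)
        obtain ⟨X, hX, a, ha⟩ := hP3 u R sdiff_subset I (hI.trans (filter_subset _ _))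
          (by omega) hIc
        exact ha ((mem_filter.1 (hI hX)).2 a)
      have hch : ∀ X : Finset C, ∃ c : C, X ∈ d.G u \ I0 →
          c ∈ X ∧ c ∈ S.biUnion fun v => Al u v := by
        intro X
        by_cases hX : X ∈ d.G u \ I0
        · rw [mem_sdiff, hI0, mem_filter] at hX
          obtain ⟨hXG, hX2⟩ := hX
          push Not at hX2
          obtain ⟨a, ha⟩ := hX2 hXG
          have h1 := hω (Sum.inr (Sum.inr (u, X, a)))
          rw [hT3 u X hXG a] at h1
          obtain ⟨v, hv, heq⟩ := mem_image.1 h1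
          rw [← heq] at ha
          have hvS : v ∈ S := by
            by_contra h
            exact ha (mem_sdiff.2 ⟨d.hAF u X hv, h⟩)
          refine ⟨d.rep u X v, fun _ => ⟨(d.hrep u X v hv).1, ?_⟩⟩
          rw [mem_biUnion]
          refine ⟨v, hvS, (hAlm _ _ _).2 ⟨Sum.inr (Sum.inr (u, X, a)), rfl, ?_, heq.symm⟩⟩
          exact mem_image_of_mem (fun v => (v, d.rep u X v)) hv
        · exact ⟨Classical.arbitrary C, fun h => absurd h hX⟩
      choose ch hch using hch
      have h1 : #(d.G u \ I0) ≤ #(S.biUnion fun v => Al u v) := by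
        apply card_le_card_of_injOn ch
        · intro X hX
          exact (hch X (mem_coe.1 hX)).2
        · intro X hX Y hY heq
          by_contra hne
          have hX := mem_coe.1 hX
          have hY := mem_coe.1 hY
          have h2 := (hch X hX).1
          have h3 := (hch Y hY).1
          rw [← heq] at h3
          exact Finset.disjoint_left.1 (d.hGd u X (mem_sdiff.1 hX).1 Y (mem_sdiff.1 hY).1 hne)
            h2 h3
      have h2 : #(d.G u \ I0) = #(d.G u) - #I0 := card_sdiff_of_subset (filter_subset _ _)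
      omega

end Pool.Agent.Helper21.LEL
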