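import Mathlib
import Pool.Agent.Helper21.LEL.Group
import Pool.Agent.Helper21.LEL.Pre
import Pool.Agent.Helper21.LEL.Stage
import Pool.Agent.Helper21.LEL.Det

/-!
Assembly.
-/

set_option autoImplicit false
set_option linter.unusedSectionVars false
set_option linter.unusedVariables false

namespace Pool.Agent.Helper21.LEL

open Finset Pool.Agent.Helper21.LEC

theorem two_pow_le_exp (m : ℕ) (x : ℝ) (h : (m : ℝ) ≤ x) (hx : 0 ≤ x) :
    (2 : ℝ) ^ m ≤ Real.exp (0.6931471808 * x) := by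
  have h1 : (2 : ℝ) ^ m = Real.exp (m * Real.log 2) := by
    rw [Real.exp_nat_mul, Real.exp_log (by norm_num)]
  rw [h1]
  apply Real.exp_le_exp.2
  have h2 := Real.log_two_lt_d9.le
  have h3 : (0 : ℝ) ≤ m := by positivity
  have h4 := Real.log_two_gt_d9
  nlinarith

theorem two_pow_inv_le_exp (m : ℕ) (x : ℝ) (h : x ≤ m) :
    ((2 : ℝ) ^ m)⁻¹ ≤ Real.exp (-(0.6931471803 * x)) := by
  have h1 : (2 : ℝ) ^ m = Real.exp (m * Real.log 2) := by
    rw [Real.exp_nat_mul, Real.exp_log (by norm_num)]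
  rw [h1, ← Real.exp_neg]
  apply Real.exp_le_exp.2
  have h2 := Real.log_two_gt_d9.le
  have h3 : (0 : ℝ) ≤ m := by positivity
  nlinarith

theorem num_w1 (N n1 : ℕ) (hn : 1024 * n1 ≤ N) :
    (2 : ℝ) ^ n1 * (1 - 511 / 524288) ^ N ≤ Real.exp (-(N / 4000)) := by
  have h1 : (n1 : ℝ) ≤ N / 1024 := by
    rw [le_div_iff₀ (by norm_num)]
    have : ((1024 * n1 : ℕ) : ℝ) ≤ N := by exact_mod_cast hn
    push_cast at this; linarith
  have h2 := two_pow_le_exp n1 _ h1 (by positivity)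
  have h3 : (1 - 511 / 524288 : ℝ) ^ N ≤ Real.exp (-(511 / 524288 * N)) := by
    have := Real.one_sub_le_exp_neg (511 / 524288)
    calc (1 - 511 / 524288 : ℝ) ^ N ≤ (Real.exp (-(511 / 524288))) ^ N :=
          pow_le_pow_left₀ (by norm_num) this N
      _ = _ := by rw [← Real.exp_nat_mul]; congr 1; ring
  calc (2 : ℝ) ^ n1 * (1 - 511 / 524288) ^ N
      ≤ Real.exp (0.6931471808 * (N / 1024)) * Real.exp (-(511 / 524288 * N)) :=
        mul_le_mul h2 h3 (by positivity) (by positivity)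
    _ = Real.exp (0.6931471808 * (N / 1024) + -(511 / 524288 * N)) := by rw [Real.exp_add]
    _ ≤ _ := by
        apply Real.exp_le_exp.2
        have : (0 : ℝ) ≤ N := by positivity
        linarith

theorem half_pow (a b : ℕ) (hab : a ≤ b) :
    (2 : ℝ) ^ a * (513 / 1024) ^ b ≤ ((2 : ℝ) ^ (b - a))⁻¹ * Real.exp (b / 512) := by
  have h1 : (513 / 1024 : ℝ) ^ b = (513 / 512) ^ b * ((2 : ℝ) ^ b)⁻¹ := by
    rw [← inv_pow, ← mul_pow]; norm_num
  have h2 : (2 : ℝ) ^ b = 2 ^ a * 2 ^ (b - a) := by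
    rw [← pow_add]; congr 1; omega
  have h3 : (513 / 512 : ℝ) ^ b ≤ Real.exp (b / 512) := by
    have := Real.add_one_le_exp (1 / 512 : ℝ)
    calc (513 / 512 : ℝ) ^ b ≤ (Real.exp (1 / 512)) ^ b :=
          pow_le_pow_left₀ (by norm_num) (by linarith) b
      _ = _ := by rw [← Real.exp_nat_mul]; congr 1; ring
  rw [h1, h2]
  have h4 : (0 : ℝ) < 2 ^ a := by positivity
  have h5 : (0 : ℝ) < 2 ^ (b - a) := by positivity
  calc (2 : ℝ) ^ a * ((513 / 512) ^ b * (2 ^ a * 2 ^ (b - a))⁻¹)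
      = (2 ^ (b - a))⁻¹ * (513 / 512) ^ b := by
        rw [mul_inv]; field_simp
    _ ≤ _ := mul_le_mul_of_nonneg_left h3 (by positivity)

theorem num_w2 (N m2 f : ℕ) (hf : m2 + f = N) (hf2 : N < 256 * (f + 1)) (hN : 2000 ≤ N) :
    (2 : ℝ) ^ m2 * (513 / 1024) ^ N ≤ Real.exp (-(N / 4000)) := by
  have h1 := half_pow m2 N (by omega)
  have h2 : N - m2 = f := by omega
  rw [h2] at h1
  have h3 : (N : ℝ) / 256 - 1 ≤ f := by
    have : (N : ℝ) < 256 * (f + 1) := by exact_mod_cast hf2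
    linarith
  have h4 := two_pow_inv_le_exp f _ h3
  refine h1.trans ?_
  calc ((2 : ℝ) ^ f)⁻¹ * Real.exp (N / 512)
      ≤ Real.exp (-(0.6931471803 * (N / 256 - 1))) * Real.exp (N / 512) :=
        mul_le_mul_of_nonneg_right h4 (Real.exp_pos _).le
    _ = Real.exp (-(0.6931471803 * (N / 256 - 1)) + N / 512) := by rw [Real.exp_add]
    _ ≤ _ := by
        apply Real.exp_le_exp.2
        have : (2000 : ℝ) ≤ N := by exact_mod_cast hN
        linarith

theorem num_w3 (N s0 s1 : ℕ) (hs : 2 * s1 ≤ s0) (hs0 : N < 16 * (s0 + 1)) (hN : 2000 ≤ N) :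
    (2 : ℝ) ^ s1 * (513 / 1024) ^ s0 ≤ Real.exp (-(N / 4000)) := by
  have h1 := half_pow s1 s0 (by omega)
  have h3 : (s0 : ℝ) / 2 ≤ ((s0 - s1 : ℕ) : ℝ) := by
    have : s0 ≤ 2 * (s0 - s1) := by omega
    have : (s0 : ℝ) ≤ 2 * ((s0 - s1 : ℕ) : ℝ) := by exact_mod_cast this
    linarith
  have h4 := two_pow_inv_le_exp (s0 - s1) _ h3
  refine h1.trans ?_
  calc ((2 : ℝ) ^ (s0 - s1))⁻¹ * Real.exp (s0 / 512)
      ≤ Real.exp (-(0.6931471803 * (s0 / 2))) * Real.exp (s0 / 512) :=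
        mul_le_mul_of_nonneg_right h4 (Real.exp_pos _).le
    _ = Real.exp (-(0.6931471803 * (s0 / 2)) + s0 / 512) := by rw [Real.exp_add]
    _ ≤ _ := by
        apply Real.exp_le_exp.2
        have h5 : (2000 : ℝ) ≤ N := by exact_mod_cast hN
        have h6 : (N : ℝ) < 16 * (s0 + 1) := by exact_mod_cast hs0
        linarith

theorem num_sum (N : ℕ) (hN : 2 * 10 ^ 13 ≤ N) :
    (N : ℝ) * (Real.exp (-(N / 4000)) * 3) + (N * (Real.exp (-(N / 4000)) * 3) +
      N * (Real.exp (-(N / 4000)) * 3)) ≤ 1 / (2 * (N : ℝ) + 1) := by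
  have hNr : (2 * 10 ^ 13 : ℝ) ≤ N := by exact_mod_cast hN
  have h1 := Real.pow_div_factorial_le_exp ((N : ℝ) / 4000) (by positivity) 3
  have h2 : (Nat.factorial 3 : ℝ) = 6 := by norm_num [Nat.factorial]
  rw [h2] at h1
  rw [le_div_iff₀ (by positivity), Real.exp_neg]
  have hE : 0 < Real.exp ((N : ℝ) / 4000) := Real.exp_pos _
  have h3 : 9 * (N : ℝ) * (2 * N + 1) ≤ Real.exp (N / 4000) := by
    refine le_trans ?_ h1
    rw [div_pow, div_div, le_div_iff₀ (by norm_num)]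
    nlinarith [sq_nonneg (N : ℝ)]
  have h4 : ((N : ℝ) * ((Real.exp (N / 4000))⁻¹ * 3) + (N * ((Real.exp (N / 4000))⁻¹ * 3) +
      N * ((Real.exp (N / 4000))⁻¹ * 3))) * (2 * N + 1)
      = (9 * (N : ℝ) * (2 * N + 1)) / Real.exp (N / 4000) := by
    field_simp; ring
  rw [h4, div_le_one hE]
  exact h3

theorem arith1 (N f m2 : ℕ) (hf : f = N / 256) (hm : m2 = N - f) : N * 255 ≤ m2 * 256 := by
  omega

theorem arith2 (N ρ τ2 : ℕ) (hf : ρ = 3 * N / 512) (hm : τ2 = N - ρ) :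
    τ2 * 512 ≤ N * 509 + 512 := by
  omega

variable {V : Type} [Fintype V] [DecidableEq V] {C : Type} [Fintype C] [DecidableEq C]

open Classical in
theorem main_pairs [Nonempty V] [Nonempty C] (r : V → ℕ) (hr : Function.Injective r)
    {B : V → Finset V} (hB : ∀ v, ∀ u ∈ B v, r u < r v) (k N : ℕ) (hk : 1 ≤ k)
    (hBk : ∀ v, #(B v) ≤ k) (hdeg : ∀ u, #(fw B u) + #(B u) ≤ N) (L : V → V → Finset C)
    (hL : ∀ u, ∀ v ∈ fw B u, #(L u v) = N) (hN : 2 * 10 ^ 24 * k ≤ N) :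
    ∃ φ : V → V → C, (∀ v, ∀ u ∈ B v, φ u v ∈ L u v) ∧
      (∀ v, ∀ u ∈ B v, ∀ u' ∈ B v, φ u v = φ u' v → u = u') ∧
      (∀ u, ∀ v ∈ fw B u, ∀ v' ∈ fw B u, φ u v = φ u v' → v = v') ∧
      (∀ u, ∀ w ∈ B u, ∀ v ∈ fw B u, φ w u ≠ φ u v) := by
  have hNbig : 2 * 10 ^ 24 ≤ N := by
    calc 2 * 10 ^ 24 = 2 * 10 ^ 24 * 1 := by ring
      _ ≤ 2 * 10 ^ 24 * k := Nat.mul_le_mul_left _ hk
      _ ≤ N := hN
  have huu : ∀ u, u ∉ B u := fun u hu => lt_irrefl _ (hB u u hu)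
  obtain ⟨n1, hn1⟩ : ∃ n1, n1 = N / 1024 := ⟨_, rfl⟩
  obtain ⟨s0, hs0⟩ : ∃ s0, s0 = N / 16 := ⟨_, rfl⟩
  obtain ⟨s1, hs1⟩ : ∃ s1, s1 = s0 / 2 := ⟨_, rfl⟩
  obtain ⟨f, hf⟩ : ∃ f, f = N / 256 := ⟨_, rfl⟩
  obtain ⟨m2, hm2⟩ : ∃ m2, m2 = N - f := ⟨_, rfl⟩
  obtain ⟨ρ, hρ⟩ : ∃ ρ, ρ = 3 * N / 512 := ⟨_, rfl⟩
  obtain ⟨τ2, hτ2⟩ : ∃ τ2, τ2 = N - ρ := ⟨_, rfl⟩
  obtain ⟨H, hH⟩ : ∃ H : ℕ, H = 12 * 9011200 := ⟨_, rfl⟩
  -- groups
  have hgr : ∀ u, ∃ G : Finset (Finset C), (6 * s0 ≤ #(fw B u) → #G = N) ∧ #G ≤ N ∧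
      (∀ X ∈ G, ∀ Y ∈ G, X ≠ Y → Disjoint X Y) ∧
      ∀ X ∈ G, s0 ≤ #(supp (fw B u) (L u) X) := by
    intro u
    by_cases hu : 6 * s0 ≤ #(fw B u)
    · obtain ⟨G, h1, h2, h3⟩ := grouping (fw B u) (L u) N s0 (by omega) hu
        (fun v hv => (hL u v hv).ge)
      exact ⟨G, fun _ => h1, h1.le, h2, h3⟩
    · exact ⟨∅, fun h => absurd h hu, by simp, by simp, by simp⟩
  choose G hG1 hG2 hG3 hG4 using hgr
  set A : V → Finset C → Finset V := fun u X => if X ∈ G u then supp (fw B u) (L u) X else ∅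
    with hA
  set rep : V → Finset C → V → C := fun u X v =>
    if h : (L u v ∩ X).Nonempty then h.choose else Classical.arbitrary C with hrep
  have hAeq : ∀ u X, X ∈ G u → A u X = supp (fw B u) (L u) X := by
    intro u X hX; simp only [hA, hX, if_true]
  have hAF : ∀ u X, A u X ⊆ fw B u := by
    intro u X
    simp only [hA]
    split_ifs
    · exact filter_subset _ _
    · exact empty_subset _
  have hAne : ∀ u X v, v ∈ A u X → X ∈ G u ∧ (L u v ∩ X).Nonempty := by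
    intro u X v hv
    simp only [hA] at hv
    split_ifs at hv with h
    · exact ⟨h, (mem_filter.1 hv).2⟩
    · simp at hv
  have hrepm : ∀ u X v, v ∈ A u X → rep u X v ∈ L u v ∧ rep u X v ∈ X := by
    intro u X v hv
    have h := (hAne u X v hv).2
    simp only [hrep, h, dif_pos]
    exact mem_inter.1 h.choose_spec
  obtain ⟨Γ, hΓ1, hΓ2, hΓ3⟩ := pre B L G A rep N n1 m2 s0 s1 hL (by omega) (by omega)
    (fun u X hX => ⟨by rw [hAeq u X hX]; exact hG4 u X hX, hAF u X⟩)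
    (fun u X _ v hv => (hrepm u X v hv).2) hG3 huu hdeg
    (Real.exp (-(N / 4000))) (Real.exp (-(N / 4000))) (Real.exp (-(N / 4000)))
    (num_w1 N n1 (by omega)) (num_w2 N m2 f (by omega) (by omega) (by omega))
    (num_w3 N s0 s1 (by omega) (by omega) (by omega)) (num_sum N (by omega))
  have hLcard : ∀ u, ∀ v ∈ fw B u, #(L u v) ≤ N := fun u v hv => (hL u v hv).le
  set d : Data (C := C) B N n1 s1 k (m2 : ℝ) :=
    { L := L
      Γ := Γ
      M := fun u v => if v ∈ fw B u then (L u v).filter fun c => c ∈ Γ v ∧ c ∉ Γ u else ∅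
      L' := fun u v => if v ∈ fw B u then (L u v).filter fun c => c ∈ Γ v else ∅
      G := G
      A := fun u X => (A u X).filter fun v => rep u X v ∈ Γ v
      rep := rep
      hM0 := fun u v hv => by simp only [hv, if_false]
      hM1 := fun u v hv => by simp only [hv, if_true]; exact hΓ1 u v hv
      hMN := fun u v => by
        split_ifs with hv
        · exact (card_filter_le _ _).trans (hLcard u v hv)
        · simp
      hMΓ := fun u v c hc => by
        split_ifs at hc with hv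
        · rw [mem_filter] at hc; exact ⟨hc.2.1, hc.2.2, hc.1⟩
        · simp at hc
      hL0 := fun u v hv => by simp only [hv, if_false]
      hL1 := fun u v hv => by
        simp only [hv, if_true]
        exact_mod_cast hΓ2 u v hv
      hLN := fun u v => by
        split_ifs with hv
        · exact (card_filter_le _ _).trans (hLcard u v hv)
        · simp
      hLΓ := fun u v c hc => by
        split_ifs at hc with hv
        · rw [mem_filter] at hc; exact ⟨hc.2, hc.1⟩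
        · simp at hc
      hA0 := fun u X hX => by simp [hA, hX]
      hA1 := fun u X hX => hΓ3 u X hX
      hAN := fun u X => by
        have h1 := card_le_card (hAF u X)
        have h2 := hdeg u
        have h3 := card_filter_le (A u X) (fun v => rep u X v ∈ Γ v)
        omega
      hAF := fun u X => (filter_subset _ _).trans (hAF u X)
      hrep := fun u X v hv => by
        rw [mem_filter] at hv
        exact ⟨(hrepm u X v hv.1).2, hv.2, (hrepm u X v hv.1).1⟩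
      hGd := hG3
      hGc := hG2
      hB := hBk
      hdeg := hdeg } with hd
  have hHr : (H : ℝ) = 12 * 9011200 := by rw [hH]; norm_num
  have hNr : (2 * 10 ^ 24 : ℝ) * k ≤ N := by exact_mod_cast hN
  have hNr2 : (2 * 10 ^ 24 : ℝ) ≤ N := by exact_mod_cast hNbig
  have hkr : (1 : ℝ) ≤ k := by exact_mod_cast hk
  have hn1r : (N : ℝ) ≤ 1100 * n1 := by
    have : N ≤ 1100 * n1 := by omega
    exact_mod_cast this
  have hn1pos : (0 : ℝ) < n1 := by linarith
  obtain ⟨Al, hAl1, hAl2, hAl3⟩ := stage (H := H) d (by omega) (by omega) hn1r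
    (by omega) (by
      have : N ≤ 40 * s1 := by omega
      exact_mod_cast this) (by
      have : n1 ≤ m2 := by omega
      exact_mod_cast this) ρ τ2 (by omega) (by omega) (by
      have h1 : (N : ℝ) * 255 ≤ m2 * 256 := by exact_mod_cast arith1 N f m2 hf hm2
      have h2 : (τ2 : ℝ) * 512 ≤ N * 509 + 512 := by exact_mod_cast arith2 N ρ τ2 hρ hτ2
      have h3 : (0 : ℝ) < m2 := by nlinarith
      have h4 : (τ2 : ℝ) / m2 ≤ 1 - 1 / 1024 - 1 / 2048 := by
        rw [div_le_iff₀ h3]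
        linarith
      linarith)
    (fun u hu => hG1 u (by
      have := hBk u
      omega)) (by
      have h1 : (1 / 4 : ℝ) ^ (H - 2) ≤ (1 / 4) ^ 40 :=
        pow_le_pow_of_le_one (by norm_num) (by norm_num) (by omega)
      rw [hHr]
      calc 43200 * (1 / 4 : ℝ) ^ (H - 2) ≤ 43200 * (1 / 4) ^ 40 :=
            mul_le_mul_of_nonneg_left h1 (by norm_num)
        _ ≤ _ := by norm_num) (by
      have h1 : (1 / 12 : ℝ) ^ N ≤ (1 / 12) ^ 20 :=
        pow_le_pow_of_le_one (by norm_num) (by norm_num) (by omega)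
      rw [hHr]
      exact h1.trans (by norm_num)) (by
      have hb : (1 + 1 / (H : ℝ)) ^ 2 ≤ 4 := by
        have h1 : 1 / (H : ℝ) ≤ 1 := by rw [hHr]; norm_num
        have h2 : 0 ≤ 1 / (H : ℝ) := by positivity
        nlinarith
      rw [div_le_div_iff₀ (by positivity) (by positivity)]
      push_cast
      have h1 : 2 * (N : ℝ) * (3 * k * H) * (1 + 1 / (H : ℝ)) ^ 2 * (4 * ((H : ℝ) + 1))
          ≤ 2 * (N : ℝ) * (3 * k * H) * 4 * (4 * ((H : ℝ) + 1)) := by
        apply mul_le_mul_of_nonneg_right _ (by positivity)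
        exact mul_le_mul_of_nonneg_left hb (by positivity)
      refine h1.trans ?_
      have h2 : (N : ℝ) ^ 2 ≤ 1210000 * (n1 : ℝ) ^ 2 := by nlinarith
      have h3 : 2 * (N : ℝ) * (3 * k * H) * 4 * (4 * ((H : ℝ) + 1)) * 1210000 ≤ (N : ℝ) ^ 2 := by
        rw [hHr]
        have h4 : (2 * 10 ^ 24 : ℝ) * k * N ≤ N * N :=
          mul_le_mul_of_nonneg_right hNr (by positivity)
        nlinarith
      linarith)
  obtain ⟨φ, h1, h2, h3, h4⟩ := exists_colouring r hr hB (Al := Al) (Q := Γ)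
    (fun v u hu c hc => (hAl1 u v c hc).2.1) hAl2 hAl3
  exact ⟨φ, fun v u hu => (hAl1 u v _ (h1 v u hu)).2.2, h2, h3, h4⟩

end Pool.Agent.Helper21.LEL
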