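import Mathlib
import Pool.Agent.Helper21.LEC.Graph
import Pool.Agent.Helper21.LEL.Main

/-!
From pairs to graphs.
-/

set_option autoImplicit false
set_option linter.unusedSectionVars false

namespace Pool.Agent.Helper21.LEL

open Finset Pool.Agent.Helper21.LEC

variable {V : Type} [Fintype V] [DecidableEq V]

/-- main list colouring statement, lists of size at least `Δ` -/
theorem list_colour (G : SimpleGraph V) [DecidableRel G.Adj] (d : ℕ)
    (h : ∀ W : Finset V, W.Nonempty → ∃ v ∈ W, #(W.filter (G.Adj v)) ≤ d)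
    (hd : 1 ≤ d) (hΔ : 2 * 10 ^ 24 * d ≤ G.maxDegree)
    (L : G.edgeSet → Finset ℕ) (hL : ∀ e, G.maxDegree ≤ #(L e)) :
    ∃ f : G.edgeSet → ℕ, (∀ e, f e ∈ L e) ∧
      ∀ e e', G.lineGraph.Adj e e' → f e ≠ f e' := by
  classical
  obtain ⟨r, hr, hrd⟩ := exists_rank G d h
  have hpos : 0 < G.maxDegree := by omega
  set N := G.maxDegree with hN
  have hne : Nonempty V := by
    by_contra hcon
    rw [not_nonempty_iff] at hcon
    have : G.maxDegree = 0 := by simp [SimpleGraph.maxDegree]
    omega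
  -- truncated lists
  have hT : ∀ e : G.edgeSet, ∃ T ⊆ L e, #T = N := fun e => exists_subset_card_eq (hL e)
  choose T hTL hTc using hT
  set K : ℕ := (univ.biUnion L).sup id + 1 with hK
  have hKlt : ∀ e : G.edgeSet, ∀ c ∈ T e, c < K := by
    intro e c hc
    have : c ≤ (univ.biUnion L).sup id :=
      le_sup (f := id) (mem_biUnion.2 ⟨e, mem_univ _, hTL e hc⟩)
    omega
  have : Nonempty (Fin K) := ⟨⟨0, by omega⟩⟩
  set B : V → Finset V := fun v => univ.filter fun w => G.Adj v w ∧ r w < r v with hB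
  have memB : ∀ {u v}, u ∈ B v ↔ G.Adj v u ∧ r u < r v := by intro u v; simp [hB]
  set L' : V → V → Finset (Fin K) := fun u v =>
    if huv : G.Adj u v then (T ⟨s(u, v), huv⟩).attachFin (hKlt _) else ∅ with hL'
  have hL'c : ∀ u, ∀ v ∈ fw B u, #(L' u v) = N := by
    intro u v hv
    have huv : G.Adj u v := (memB.1 (mem_fw.1 hv)).1.symm
    simp only [hL', huv, dif_pos]
    rw [card_attachFin, hTc]
  have hdeg : ∀ u, #(fw B u) + #(B u) ≤ N := by
    intro u
    have hdis : Disjoint (fw B u) (B u) := by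
      rw [Finset.disjoint_left]
      intro v hv hv'
      have h1 := (memB.1 (mem_fw.1 hv)).2
      have h2 := (memB.1 hv').2
      omega
    rw [← card_union_of_disjoint hdis]
    refine le_trans (card_le_card ?_) (G.degree_le_maxDegree u)
    intro v hv
    rw [SimpleGraph.mem_neighborFinset]
    rcases mem_union.1 hv with hv | hv
    · exact (memB.1 (mem_fw.1 hv)).1.symm
    · exact (memB.1 hv).1
  obtain ⟨φ, hφ1, hφ2, hφ3, hφ4⟩ := main_pairs (V := V) (C := Fin K) r hr (B := B)
    (fun v u hu => (memB.1 hu).2) d N hd hrd hdeg L' hL'c hΔ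
  -- representatives
  have hrep : ∀ e : G.edgeSet, ∃ u v, u ∈ B v ∧ e.1 = s(u, v) := by
    rintro ⟨e, he⟩
    induction e with
    | _ a b =>
      have hab : G.Adj a b := he
      have hne : r a ≠ r b := fun hh => hab.ne (hr hh)
      rcases lt_or_gt_of_ne hne with hlt | hlt
      · exact ⟨a, b, memB.2 ⟨hab.symm, hlt⟩, rfl⟩
      · exact ⟨b, a, memB.2 ⟨hab, hlt⟩, Sym2.eq_swap⟩
  choose p q hpq he using hrep
  refine ⟨fun e => (φ (p e) (q e)).1, ?_, ?_⟩
  · intro e
    have h1 := hφ1 (q e) (p e) (hpq e)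
    have hadj : G.Adj (p e) (q e) := (memB.1 (hpq e)).1.symm
    simp only [hL', hadj, dif_pos] at h1
    rw [mem_attachFin] at h1
    have h2 : (⟨s(p e, q e), hadj⟩ : G.edgeSet) = e := Subtype.ext (he e).symm
    rw [h2] at h1
    exact hTL e h1
  · intro e e' hadj heq
    have heq : φ (p e) (q e) = φ (p e') (q e') := Fin.ext heq
    rw [SimpleGraph.lineGraph_adj_iff_exists] at hadj
    obtain ⟨hne, x, hx, hx'⟩ := hadj
    rw [he e, Sym2.mem_iff] at hx
    rw [he e', Sym2.mem_iff] at hx'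
    have hne' : ¬ (p e = p e' ∧ q e = q e') := by
      rintro ⟨h1, h2⟩
      apply hne
      apply Subtype.ext
      rw [he e, he e', h1, h2]
    rcases hx with hx | hx <;> rcases hx' with hx' | hx'
    · -- common earlier endpoint
      have hp : p e = p e' := hx.symm.trans hx'
      apply hne'
      refine ⟨hp, hφ3 (p e) (q e) (mem_fw.2 (hpq e)) (q e') (mem_fw.2 (hp ▸ hpq e')) ?_⟩
      rw [heq, hp]
    · -- p e = q e'
      have hp : p e = q e' := hx.symm.trans hx'
      refine hφ4 (p e) (p e') (hp ▸ hpq e') (q e) (mem_fw.2 (hpq e)) ?_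
      rw [heq, hp]
    · have hp : q e = p e' := hx.symm.trans hx'
      refine hφ4 (p e') (p e) (hp ▸ hpq e) (q e') (mem_fw.2 (hpq e')) ?_
      rw [← heq, hp]
    · have hp : q e = q e' := hx.symm.trans hx'
      apply hne'
      refine ⟨hφ2 (q e) (p e) (hpq e) (p e') (hp ▸ hpq e') ?_, hp⟩
      rw [heq, hp]

/-- The list edge colouring statement for graphs of small degeneracy. -/
theorem final (G : SimpleGraph V) [DecidableRel G.Adj] (d : ℕ)
    (h : ∀ W : Finset V, W.Nonempty → ∃ v ∈ W, #(W.filter (G.Adj v)) ≤ d)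
    (hΔ : 2 * 10 ^ 24 * d ≤ G.maxDegree) (n : ℕ) :
    (G.lineGraph.Colorable n ↔ ∀ L : G.edgeSet → Finset ℕ, (∀ e, n ≤ #(L e)) →
      ∃ f : G.edgeSet → ℕ, (∀ e, f e ∈ L e) ∧ ∀ e e', G.lineGraph.Adj e e' → f e ≠ f e') ∧
    (G.lineGraph.Colorable n ↔ G.maxDegree ≤ n) := by
  classical
  -- list colourable gives colourable
  have h1 : (∀ L : G.edgeSet → Finset ℕ, (∀ e, n ≤ #(L e)) →
      ∃ f : G.edgeSet → ℕ, (∀ e, f e ∈ L e) ∧ ∀ e e', G.lineGraph.Adj e e' → f e ≠ f e') →
      G.lineGraph.Colorable n := by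
    intro hh
    obtain ⟨f, hf, hf'⟩ := hh (fun _ => range n) (fun _ => by rw [card_range])
    exact ⟨SimpleGraph.Coloring.mk (fun e => (⟨f e, mem_range.1 (hf e)⟩ : Fin n))
      (fun {a b} hab hcon => hf' a b hab (by simpa using hcon))⟩
  have h2 : G.maxDegree ≤ n → ∀ L : G.edgeSet → Finset ℕ, (∀ e, n ≤ #(L e)) →
      ∃ f : G.edgeSet → ℕ, (∀ e, f e ∈ L e) ∧
        ∀ e e', G.lineGraph.Adj e e' → f e ≠ f e' := by
    intro hn L hL
    by_cases hd : 1 ≤ d
    · exact list_colour G d h hd hΔ L fun e => hn.trans (hL e)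
    · -- no edges
      have hemp : IsEmpty G.edgeSet := by
        constructor
        rintro ⟨e, he⟩
        obtain ⟨r, hr, hrd⟩ := exists_rank G d h
        induction e with
        | _ a b =>
          have hab : G.Adj a b := he
          have hne : r a ≠ r b := fun hh => hab.ne (hr hh)
          rcases lt_or_gt_of_ne hne with hlt | hlt
          · have h5 := hrd b
            have h6 : 0 < #(univ.filter fun w => G.Adj b w ∧ r w < r b) :=
              card_pos.2 ⟨a, mem_filter.2 ⟨mem_univ _, hab.symm, hlt⟩⟩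
            omega
          · have h5 := hrd a
            have h6 : 0 < #(univ.filter fun w => G.Adj a w ∧ r w < r a) :=
              card_pos.2 ⟨b, mem_filter.2 ⟨mem_univ _, hab, hlt⟩⟩
            omega
      exact ⟨fun e => (hemp.false e).elim, fun e => (hemp.false e).elim,
        fun e => (hemp.false e).elim⟩
  have h3 := maxDegree_le_of_colorable G n
  exact ⟨⟨fun hc => h2 (h3 hc), h1⟩, ⟨h3, fun hn => h1 (h2 hn)⟩⟩

end Pool.Agent.Helper21.LEL
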